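import Mathlib
import Pool.Agent.H436R3.Fol.Val
import Pool.Agent.H436R3.Fol.Defs

/-!
# Foliations on normal projective varieties and the morphisms inducing them

Prime divisors are given by their valuations `DVal`, and foliations by their generic stalks
(`Foliation`, with canonical divisor `IsCanOrd`), see `Pool.Agent.H436R3.Fol.Defs`.
-/

set_option autoImplicit false

namespace Pool.Agent.H436R3.Can

open Pool.Agent.H436R3.Fol

section

variable {K : Type} [Field K] [Algebra ℂ K]

/-- The `i`-th chart `ℂ [y_0 / y_i, ..., y_n / y_i]`. -/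
def chartOf {n : ℕ} (y : Fin (n + 1) → K) (i : Fin (n + 1)) : Subalgebra ℂ K :=
  Algebra.adjoin ℂ (Set.range fun j => y j / y i)

/-- A normal projective variety with function field `K`: the image of `(y_0 : ... : y_n)` in the
projective space, covered by the spectra of the charts `ℂ [y_0 / y_i, ..., y_n / y_i]`. -/
structure ProjVar (K : Type) [Field K] [Algebra ℂ K] where
  n : ℕ
  y : Fin (n + 1) → K
  ne : ∀ i, y i ≠ 0
  frac : ∀ i f, ∃ a b : K, a ∈ chartOf y i ∧ b ∈ chartOf y i ∧ b ≠ 0 ∧ f * b = a
  normal : ∀ i f, IsIntegral (chartOf y i) f → f ∈ chartOf y i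

/-- The coordinate ring of the `i`-th chart of `X`. -/
def ProjVar.chart (X : ProjVar K) (i : Fin (X.n + 1)) : Subalgebra ℂ K := chartOf X.y i

/-- A closed point of `X`: a point of one of the charts, where the functions on the chart have
values in `ℂ`. -/
structure Pt (X : ProjVar K) where
  i : Fin (X.n + 1)
  φ : X.chart i →ₐ[ℂ] ℂ

variable {X : ProjVar K}

/-- The local ring of `X` at the closed point `P`. -/
def localRing (P : Pt X) : Set K := {f | ∃ a b : X.chart P.i, P.φ b ≠ 0 ∧ f * b = a}

/-- `v` is the valuation of a prime divisor on `X` that contains the closed point `P`. -/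
def OnAt (P : Pt X) (v : DVal K) : Prop :=
  IsLocalRing' (X.chart P.i) v ∧ ∀ f : X.chart P.i, v.Pos (f : K) → P.φ f = 0

/-- `v` is the valuation of a prime divisor over `X`, that is, on some normal variety with a proper
birational morphism to `X`, whose centre on `X` contains the closed point `P`. -/
def OverAt (P : Pt X) (v : DVal K) : Prop :=
  (∃ S : Subalgebra ℂ K, S.FG ∧ X.chart P.i ≤ S ∧ IsLocalRing' S v) ∧
    ∀ f : X.chart P.i, v.Pos (f : K) → P.φ f = 0

/-- The two valuations agree. -/
def Same (v w : DVal K) : Prop := ∀ f : K, f ≠ 0 → v.ord f = w.ord f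

/-- `X` is `ℚ`-factorial: every prime divisor `v` on `X` has a positive multiple `N v` that is
Cartier, given near every closed point by one equation `g`. -/
def IsQFactorial (X : ProjVar K) : Prop :=
  ∀ v : DVal K, (∃ i, IsLocalRing' (X.chart i) v) → ∃ N : ℕ, 0 < N ∧ ∀ P : Pt X, ∃ g : K, g ≠ 0 ∧
    ∀ u, OnAt P u → (Same u v → u.ord g = N) ∧ (¬ Same u v → u.ord g = 0)

/-- Near the closed point `P`, the divisor `N K_F` on `X` is the divisor of `g`. -/
def IsLocalEq {r : ℕ} (P : Pt X) (F : Foliation K r) (N : ℕ) (g : K) : Prop :=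
  0 < N ∧ g ≠ 0 ∧ ∀ v, OnAt P v → ∃ a : ℤ, IsCanOrd F v a ∧ N * a = v.ord g

/-- `(F, 0)` is canonical: `K_F` is `ℚ`-Cartier, and for all prime divisors over `X` the
discrepancy, the multiplicity of `K_F` minus the pull-back of `K_F` from `X`, is at least `0`. -/
def IsCanonical {r : ℕ} (X : ProjVar K) (F : Foliation K r) : Prop :=
  ∀ P : Pt X, ∃ N g, IsLocalEq P F N g ∧
    ∀ v, OverAt P v → ∃ a : ℤ, IsCanOrd F v a ∧ (0 : ℤ) ≤ N * a - v.ord g

/-- `(X, 0)` is klt: `K_X` is `ℚ`-Cartier, and for all prime divisors over `X` the discrepancy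
is bigger than `-1`. Here `T` is the tangent sheaf of `X`. -/
def IsKlt {d : ℕ} (X : ProjVar K) (T : Foliation K d) : Prop :=
  ∀ P : Pt X, ∃ N g, IsLocalEq P T N g ∧
    ∀ v, OverAt P v → ∃ a : ℤ, IsCanOrd T v a ∧ (-N : ℤ) < N * a - v.ord g

end

section

variable {L : Type} [Field L] [Algebra ℂ L]

/-- The localisation of `B` at the centre of the valuation ring `V` on `Spec B`. -/
def locAt (B : Subalgebra ℂ L) (V : ValuationSubring L) : Set L :=
  {f | ∃ a ∈ B, ∃ b ∈ B, b ≠ 0 ∧ b⁻¹ ∈ V ∧ f * b = a}

/-- A normal variety `Y` with function field `L`, in the sense of Chevalley: a union of affine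
varieties `Spec B_j` with function field `L`, such that no valuation ring of `L` dominates two
different local rings of `Y`, that is, such that `Y` is separated. -/
structure Variety (L : Type) [Field L] [Algebra ℂ L] where
  m : ℕ
  pos : 0 < m
  B : Fin m → Subalgebra ℂ L
  fg : ∀ j, (B j).FG
  frac : ∀ j f, ∃ a b : L, a ∈ B j ∧ b ∈ B j ∧ b ≠ 0 ∧ f * b = a
  normal : ∀ j f, IsIntegral (B j) f → f ∈ B j
  separated : ∀ i j (V : ValuationSubring L), (∀ b ∈ B i, b ∈ V) → (∀ b ∈ B j, b ∈ V) →
    locAt (B i) V = locAt (B j) V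

variable {K : Type} [Field K] [Algebra ℂ K]

/-- The dominant rational map from `X` to `Y` given by the inclusion `ι` of the function fields is
a morphism: every closed point `P` of `X` has a chart of `Y` whose coordinate functions are regular
at `P`. -/
def IsMorphism (X : ProjVar K) (Y : Variety L) (ι : L →ₐ[ℂ] K) : Prop :=
  ∀ P : Pt X, ∃ j, ∀ b ∈ Y.B j, ι b ∈ localRing P

/-- The dominant rational map given by the inclusion `ι` of the function fields induces the foliation
`F`: the vector fields in `F` are those that kill the functions on the target. -/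
def Induces {r : ℕ} (ι : L →ₐ[ℂ] K) (F : Foliation K r) : Prop :=
  ∀ D : Derivation ℂ K K, D ∈ F.space ↔ ∀ a : L, D (ι a) = 0

/-- The foliation `F` is algebraically integrable: some dominant rational map induces it. -/
def IsAlgIntegrable {r : ℕ} (F : Foliation K r) : Prop :=
  ∃ (L : Type) (_ : Field L) (_ : Algebra ℂ L) (_ : Variety L) (ι : L →ₐ[ℂ] K), Induces ι F

end

end Pool.Agent.H436R3.Can
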