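import Mathlib
import Pool.Agent.H436R3.Can.Defs
import Pool.Agent.H436R3.Fol.LogDer

/-!
# General facts on the charts of a projective variety
-/

set_option autoImplicit false

namespace Pool.Agent.H436R3.Can

open Pool.Agent.H436R3.Fol

variable {K : Type} [Field K] [Algebra ℂ K] {n : ℕ} {y : Fin (n + 1) → K}

theorem ratio_mem (i j : Fin (n + 1)) : y j / y i ∈ chartOf y i :=
  Algebra.subset_adjoin ⟨j, rfl⟩

theorem chartOf_le {i : Fin (n + 1)} {S : Subalgebra ℂ K} (h : ∀ j, y j / y i ∈ S) :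
    chartOf y i ≤ S := by
  rw [chartOf, Algebra.adjoin_le_iff]
  rintro _ ⟨j, rfl⟩
  exact h j

theorem chartOf_fg (i : Fin (n + 1)) : (chartOf y i).FG := by
  classical
  refine ⟨Finset.univ.image fun j => y j / y i, ?_⟩
  rw [Finset.coe_image, Finset.coe_univ, Set.image_univ]
  rfl

theorem exists_pow_mem (hy : ∀ i, y i ≠ 0) (i i' : Fin (n + 1)) {f : K} (hf : f ∈ chartOf y i') :
    ∃ N : ℕ, ∀ m, N ≤ m → (y i' / y i) ^ m * f ∈ chartOf y i := by
  induction hf using Algebra.adjoin_induction with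
  | mem f hf =>
    obtain ⟨j, rfl⟩ := hf
    refine ⟨1, fun m hm => ?_⟩
    obtain ⟨e, rfl⟩ := Nat.exists_eq_add_of_le' hm
    have h1 : (y i' / y i) ^ (e + 1) * (y j / y i') = (y i' / y i) ^ e * (y j / y i) := by
      have h2 : (y i' / y i) * (y j / y i') = y j / y i := by
        have := hy i
        have := hy i'
        field_simp
      rw [pow_succ, mul_assoc, h2]
    simp only at h1 ⊢
    rw [h1]
    exact mul_mem (pow_mem (ratio_mem _ _) _) (ratio_mem _ _)
  | algebraMap c =>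
    exact ⟨0, fun m _ => mul_mem (pow_mem (ratio_mem _ _) _) (Subalgebra.algebraMap_mem _ _)⟩
  | add f g _ _ hf hg =>
    obtain ⟨N1, h1⟩ := hf
    obtain ⟨N2, h2⟩ := hg
    refine ⟨N1 + N2, fun m hm => ?_⟩
    rw [mul_add]
    exact add_mem (h1 m (by omega)) (h2 m (by omega))
  | mul f g _ _ hf hg =>
    obtain ⟨N1, h1⟩ := hf
    obtain ⟨N2, h2⟩ := hg
    refine ⟨N1 + N2, fun m hm => ?_⟩
    obtain ⟨e, rfl⟩ := Nat.exists_eq_add_of_le hm
    have h3 : (y i' / y i) ^ (N1 + N2 + e) * (f * g) =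
        ((y i' / y i) ^ N1 * f) * ((y i' / y i) ^ (N2 + e) * g) := by ring
    rw [h3]
    exact mul_mem (h1 _ le_rfl) (h2 _ (by omega))

/-- If a prime divisor on one chart has its centre on another chart, then it is a prime divisor on
that chart. -/
theorem on_chart (hy : ∀ i, y i ≠ 0) {i i' : Fin (n + 1)} {v : DVal K}
    (hv : IsLocalRing' (chartOf y i') v) (h : ∀ f ∈ chartOf y i, v.Reg f) :
    IsLocalRing' (chartOf y i) v := by
  refine ⟨h, fun f hf => ?_⟩
  obtain ⟨a, b, ha, hb, hb0, hob, hab⟩ := hv.2 f hf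
  have hs : y i' / y i ≠ 0 := div_ne_zero (hy _) (hy _)
  have hs' : y i / y i' ≠ 0 := div_ne_zero (hy _) (hy _)
  have h1 := v.ord_nonneg hs (h _ (ratio_mem i i'))
  have h2 := v.ord_nonneg hs' (hv.1 _ (ratio_mem i' i))
  rw [v.ord_div (hy _) (hy _)] at h1 h2
  obtain ⟨N1, h3⟩ := exists_pow_mem hy i i' ha
  obtain ⟨N2, h4⟩ := exists_pow_mem hy i i' hb
  refine ⟨(y i' / y i) ^ (N1 + N2) * a, (y i' / y i) ^ (N1 + N2) * b, h3 _ (by omega),
    h4 _ (by omega), mul_ne_zero (pow_ne_zero _ hs) hb0, ?_, ?_⟩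
  · rw [v.map_mul _ _ (pow_ne_zero _ hs) hb0, v.ord_pow hs, v.ord_div (hy _) (hy _), hob]
    have h5 : v.ord (y i') - v.ord (y i) = 0 := by omega
    rw [h5]
    ring
  · rw [← hab]
    ring

/-- Clearing denominators in an integral equation. -/
theorem integral_of_pow {R S : Subalgebra ℂ K} {s : K} (hRS : ∀ f ∈ S, ∃ N : ℕ, ∀ m, N ≤ m →
    s ^ m * f ∈ R) (hs : s ∈ R) {f : K} (hf : IsIntegral S f) :
    ∃ N : ℕ, IsIntegral R (s ^ N * f) := by
  obtain ⟨p, hp, h0⟩ := hf
  choose N hN using fun c : S => hRS c c.2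
  -- a common exponent
  set M : ℕ := ∑ k ∈ Finset.range (p.natDegree + 1), N (p.coeff k) with hM
  have hMk : ∀ k ≤ p.natDegree, s ^ M * (p.coeff k : K) ∈ R := by
    intro k hk
    apply hN
    exact Finset.single_le_sum (f := fun k => N (p.coeff k)) (fun _ _ => Nat.zero_le _)
      (Finset.mem_range.2 (by omega))
  refine ⟨M, ?_⟩
  set d := p.natDegree with hd
  have hc : ∀ k < d, s ^ (M * (d - k)) * (p.coeff k : K) ∈ R := by
    intro k hk
    obtain ⟨e, he⟩ : ∃ e, M * (d - k) = M + M * e := by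
      obtain ⟨e, he⟩ := Nat.exists_eq_add_of_lt hk
      exact ⟨e, by rw [he]; have : k + e + 1 - k = e + 1 := by omega
                   rw [this]; ring⟩
    rw [he, pow_add, mul_comm (s ^ M), mul_assoc, pow_mul]
    exact mul_mem (pow_mem (pow_mem hs _) _) (hMk k hk.le)
  let q : Polynomial R := Polynomial.X ^ d + ∑ k : Fin d,
    Polynomial.C ⟨_, hc k k.2⟩ * Polynomial.X ^ (k : ℕ)
  have hq : q.Monic := by
    apply Polynomial.monic_X_pow_add
    exact Polynomial.degree_sum_fin_lt fun k : Fin d =>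
      (⟨s ^ (M * (d - k)) * (p.coeff k : K), hc k k.2⟩ : R)
  refine ⟨q, hq, ?_⟩
  rw [Polynomial.eval₂_add, Polynomial.eval₂_pow, Polynomial.eval₂_X, Polynomial.eval₂_finsetSum]
  have h1 : ∀ k : Fin d, Polynomial.eval₂ (algebraMap R K) (s ^ M * f)
      (Polynomial.C ⟨_, hc k k.2⟩ * Polynomial.X ^ (k : ℕ)) =
      s ^ (M * d) * ((p.coeff k : K) * f ^ (k : ℕ)) := by
    intro k
    rw [Polynomial.eval₂_mul, Polynomial.eval₂_C, Polynomial.eval₂_pow, Polynomial.eval₂_X]
    change s ^ (M * (d - k)) * (p.coeff k : K) * (s ^ M * f) ^ (k : ℕ) = _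
    have h2 : M * d = M * (d - k) + M * k := by
      rw [← mul_add]
      congr 1
      have := k.2
      omega
    rw [h2, pow_add, mul_pow, pow_mul s M k]
    ring
  simp only [h1]
  rw [← Finset.mul_sum, mul_pow, ← pow_mul, ← mul_add]
  rw [Polynomial.eval₂_eq_sum_range, Finset.sum_range_succ, ← hd] at h0
  have h3 : (algebraMap S K) (p.coeff d) = 1 := by
    have : p.coeff d = 1 := hp
    rw [this, map_one]
  rw [h3, one_mul, Finset.sum_range] at h0
  rw [add_comm]
  have h4 : ∑ k : Fin d, ((p.coeff k : K) * f ^ (k : ℕ)) + f ^ d = 0 := h0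
  rw [h4, mul_zero]

/-- A chart which is a localisation of a normal chart is normal. -/
theorem normal_of_base (hy : ∀ i, y i ≠ 0) {i b b' : Fin (n + 1)} (hb : y i * y i = y b * y b')
    (hbi : ∀ j, y j / y b ∈ chartOf y i) (hn : ∀ f, IsIntegral (chartOf y b) f → f ∈ chartOf y b)
    {f : K} (hf : IsIntegral (chartOf y i) f) : f ∈ chartOf y i := by
  have hle : chartOf y b ≤ chartOf y i := chartOf_le hbi
  obtain ⟨N, hN⟩ := integral_of_pow (R := chartOf y b) (S := chartOf y i) (s := y i / y b)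
    (fun g hg => exists_pow_mem hy b i hg) (ratio_mem _ _) hf
  have h1 := hle (hn _ hN)
  have h2 : f = (y b / y i) ^ N * ((y i / y b) ^ N * f) := by
    have h3 : (y b / y i) * (y i / y b) = 1 := by
      have := hy i
      have := hy b
      field_simp
    rw [← mul_assoc, ← mul_pow, h3, one_pow, one_mul]
  rw [h2]
  exact mul_mem (pow_mem (ratio_mem _ _) _) h1

theorem ratio_base (hy : ∀ i, y i ≠ 0) {i b b' : Fin (n + 1)} (hb : y i * y i = y b * y b')
    (j : Fin (n + 1)) : y j / y b ∈ chartOf y i := by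
  have h1 : y j / y b = (y j / y i) * (y b' / y i) := by
    have := hy i
    have := hy b
    field_simp
    rw [pow_two, hb]
    ring
  rw [h1]
  exact mul_mem (ratio_mem _ _) (ratio_mem _ _)

/-- The affine variety given by a chart. -/
def ProjVar.aff (X : ProjVar K) (i : Fin (X.n + 1)) : NormalAffine K where
  R := X.chart i
  fg := chartOf_fg i
  frac := X.frac i
  normal := X.normal i

end Pool.Agent.H436R3.Can
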