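import Mathlib
import Pool.Agent.H436R3.Fol.Div

/-!
# Monomials and monomial automorphisms of the field of rational functions in three variables
-/

set_option autoImplicit false

namespace Pool.Agent.H436R3.Can

open MvPolynomial Pool.Agent.H436R3.Fol

/-- The monomial with exponents `e`. -/
noncomputable def mono (e : Fin 3 → ℤ) : K3 := vv 0 ^ e 0 * vv 1 ^ e 1 * vv 2 ^ e 2

theorem mono_ne (e : Fin 3 → ℤ) : mono e ≠ 0 :=
  mul_ne_zero (mul_ne_zero (zpow_ne_zero _ (vv_ne 0)) (zpow_ne_zero _ (vv_ne 1)))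
    (zpow_ne_zero _ (vv_ne 2))

theorem mono_add (e e' : Fin 3 → ℤ) : mono (e + e') = mono e * mono e' := by
  simp only [mono, Pi.add_apply]
  rw [zpow_add₀ (vv_ne 0), zpow_add₀ (vv_ne 1), zpow_add₀ (vv_ne 2)]
  ring

theorem mono_zero : mono 0 = 1 := by
  simp [mono]

theorem mono_neg (e : Fin 3 → ℤ) : mono (-e) = (mono e)⁻¹ := by
  apply eq_inv_of_mul_eq_one_left
  rw [← mono_add, neg_add_cancel, mono_zero]

theorem mono_sub (e e' : Fin 3 → ℤ) : mono (e - e') = mono e / mono e' := by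
  rw [sub_eq_add_neg, mono_add, mono_neg, div_eq_mul_inv]

/-- The standard basis vectors. -/
def ev (i : Fin 3) : Fin 3 → ℤ := fun j => if i = j then 1 else 0

theorem mono_ev (i : Fin 3) : mono (ev i) = vv i := by
  fin_cases i <;> simp [mono, ev]

/-- The product of a row vector and a matrix. -/
def mulv (e : Fin 3 → ℤ) (M : Fin 3 → Fin 3 → ℤ) : Fin 3 → ℤ :=
  fun k => e 0 * M 0 k + e 1 * M 1 k + e 2 * M 2 k

theorem ord_mono (v : DVal K3) (e : Fin 3 → ℤ) :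
    v.ord (mono e) = e 0 * v.ord (vv 0) + e 1 * v.ord (vv 1) + e 2 * v.ord (vv 2) := by
  rw [mono, v.map_mul _ _ (mul_ne_zero (zpow_ne_zero _ (vv_ne 0)) (zpow_ne_zero _ (vv_ne 1)))
    (zpow_ne_zero _ (vv_ne 2)), v.map_mul _ _ (zpow_ne_zero _ (vv_ne 0)) (zpow_ne_zero _ (vv_ne 1)),
    v.ord_zpow (vv_ne 0), v.ord_zpow (vv_ne 1), v.ord_zpow (vv_ne 2)]

/-- The value of a derivation at a monomial. -/
theorem logDer_mono (D : Derivation ℂ K3 K3) (e : Fin 3 → ℤ) :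
    D (mono e) / mono e = e 0 * (D (vv 0) / vv 0) + e 1 * (D (vv 1) / vv 1) +
      e 2 * (D (vv 2) / vv 2) := by
  rw [mono, logDer_mul (mul_ne_zero (zpow_ne_zero _ (vv_ne 0)) (zpow_ne_zero _ (vv_ne 1)))
    (zpow_ne_zero _ (vv_ne 2)), logDer_mul (zpow_ne_zero _ (vv_ne 0)) (zpow_ne_zero _ (vv_ne 1)),
    logDer_zpow (vv_ne 0), logDer_zpow (vv_ne 1), logDer_zpow (vv_ne 2)]

theorem th_mono (i : Fin 3) (e : Fin 3 → ℤ) : th i (mono e) = e i * mono e := by
  rw [← div_eq_iff (mono_ne e), logDer_mono, th_vv, th_vv, th_vv]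
  fin_cases i <;> simp [vv_ne]

theorem algInd_of_log {g : Fin 3 → K3} (hg : ∀ i, g i ≠ 0) (D : Fin 3 → Derivation ℂ K3 K3)
    (hD : ∀ i j, D i (g j) = if i = j then g j else 0) : AlgebraicIndependent ℂ g := by
  apply Pool.Agent.H135R2.VS.algInd_of_der
  intro v
  refine ⟨∑ i, (v i / g i) • D i, fun j => ?_⟩
  rw [sum_der_apply]
  simp only [hD, mul_ite, mul_zero, Finset.sum_ite_eq', Finset.mem_univ, if_true]
  rw [div_mul_cancel₀ _ (hg j)]

theorem aeval_inj {g : Fin 3 → K3} (h : AlgebraicIndependent ℂ g) :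
    Function.Injective (aeval g : Q3 →ₐ[ℂ] K3) := algebraicIndependent_iff_injective_aeval.1 h

/-- The endomorphism of the function field with prescribed values. -/
noncomputable def hom (g : Fin 3 → K3) (h : AlgebraicIndependent ℂ g) : K3 →ₐ[ℂ] K3 :=
  IsFractionRing.liftAlgHom (A := Q3) (g := aeval g) (aeval_inj h)

theorem hom_vv (g : Fin 3 → K3) (h : AlgebraicIndependent ℂ g) (i : Fin 3) :
    hom g h (vv i) = g i := by
  have h1 : hom g h (algebraMap Q3 K3 (X i)) = aeval g (X i) :=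
    IsFractionRing.lift_algebraMap (aeval_inj h) _
  rw [aeval_X] at h1
  exact h1

theorem algHom_ext_vv {φ ψ : K3 →ₐ[ℂ] K3} (h : ∀ i, φ (vv i) = ψ (vv i)) : φ = ψ :=
  algHom_ext3 (h 0) (h 1) (h 2)

/-- A pair of mutually inverse integral matrices. -/
structure MP where
  M : Fin 3 → Fin 3 → ℤ
  N : Fin 3 → Fin 3 → ℤ
  MN : ∀ i k, mulv (M i) N k = ev i k
  NM : ∀ i k, mulv (N i) M k = ev i k

variable (p : MP)

theorem MP.ind : AlgebraicIndependent ℂ fun i => mono (p.M i) := by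
  refine algInd_of_log (fun i => mono_ne _)
    (fun k => (p.N 0 k : K3) • th 0 + (p.N 1 k : K3) • th 1 + (p.N 2 k : K3) • th 2) ?_
  intro k i
  have h1 : (p.M i 0 : K3) * p.N 0 k + p.M i 1 * p.N 1 k + p.M i 2 * p.N 2 k =
      if k = i then 1 else 0 := by
    have h2 := p.MN i k
    rw [mulv, ev] at h2
    have h3 : (if k = i then (1 : K3) else 0) = ((if i = k then (1 : ℤ) else 0 : ℤ) : K3) := by
      by_cases h : i = k
      · rw [if_pos h.symm, if_pos h, Int.cast_one]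
      · rw [if_neg fun h' => h h'.symm, if_neg h, Int.cast_zero]
    rw [h3, ← h2]
    push_cast
    ring
  simp only [Derivation.add_apply, Derivation.smul_apply, smul_eq_mul, th_mono]
  have h4 : (p.N 0 k : K3) * (p.M i 0 * mono (p.M i)) + p.N 1 k * (p.M i 1 * mono (p.M i)) +
      p.N 2 k * (p.M i 2 * mono (p.M i)) = ((p.M i 0 : K3) * p.N 0 k + p.M i 1 * p.N 1 k +
      p.M i 2 * p.N 2 k) * mono (p.M i) := by ring
  rw [h4, h1, ite_mul, one_mul, zero_mul]

/-- The inverse pair. -/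
def MP.inv : MP := ⟨p.N, p.M, p.NM, p.MN⟩

/-- The endomorphism given by the matrix. -/
noncomputable def MP.h : K3 →ₐ[ℂ] K3 := hom (fun i => mono (p.M i)) p.ind

theorem MP.h_vv (i : Fin 3) : p.h (vv i) = mono (p.M i) := hom_vv _ _ i

theorem mono_mulv (e : Fin 3 → ℤ) (M : Fin 3 → Fin 3 → ℤ) :
    mono (M 0) ^ e 0 * mono (M 1) ^ e 1 * mono (M 2) ^ e 2 = mono (mulv e M) := by
  simp only [mono, mulv]
  rw [zpow_add₀ (vv_ne 0), zpow_add₀ (vv_ne 0), zpow_add₀ (vv_ne 1), zpow_add₀ (vv_ne 1),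
    zpow_add₀ (vv_ne 2), zpow_add₀ (vv_ne 2)]
  simp only [mul_zpow, ← zpow_mul]
  rw [mul_comm (e 0) (M 0 0), mul_comm (e 1) (M 1 0), mul_comm (e 2) (M 2 0),
    mul_comm (e 0) (M 0 1), mul_comm (e 1) (M 1 1), mul_comm (e 2) (M 2 1),
    mul_comm (e 0) (M 0 2), mul_comm (e 1) (M 1 2), mul_comm (e 2) (M 2 2)]
  ring

theorem MP.h_mono (e : Fin 3 → ℤ) : p.h (mono e) = mono (mulv e p.M) := by
  rw [← mono_mulv, mono, map_mul, map_mul, map_zpow₀, map_zpow₀, map_zpow₀, p.h_vv, p.h_vv,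
    p.h_vv]

theorem mono_congr {e e' : Fin 3 → ℤ} (h : ∀ k, e k = e' k) : mono e = mono e' := by
  rw [funext h]

theorem MP.h_comp : p.h.comp p.inv.h = AlgHom.id ℂ K3 := by
  apply algHom_ext_vv
  intro i
  rw [AlgHom.comp_apply, p.inv.h_vv, p.h_mono, AlgHom.id_apply, ← mono_ev]
  exact mono_congr (p.NM i)

/-- The automorphism given by the matrix. -/
noncomputable def MP.τ : K3 ≃ₐ[ℂ] K3 := AlgEquiv.ofAlgHom p.h p.inv.h p.h_comp p.inv.h_comp

theorem MP.τ_mono (e : Fin 3 → ℤ) : p.τ (mono e) = mono (mulv e p.M) := p.h_mono e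

theorem MP.τs_mono (e : Fin 3 → ℤ) : p.τ.symm (mono e) = mono (mulv e p.N) := p.inv.h_mono e

theorem MP.τ_vv (i : Fin 3) : p.τ (vv i) = mono (p.M i) := p.h_vv i

theorem MP.τs_vv (i : Fin 3) : p.τ.symm (vv i) = mono (p.N i) := p.inv.h_vv i

end Pool.Agent.H436R3.Can
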