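import Mathlib
import Pool.Agent.H436R3.Can.Mono
import Pool.Agent.H436R3.Can.Defs

/-!
# Charts which are images of the polynomial ring
-/

set_option autoImplicit false

namespace Pool.Agent.H436R3.Can

open MvPolynomial Pool.Agent.H436R3.Fol

theorem io_C (c : ℂ) : io (C c) = algebraMap ℂ K3 c := by
  rw [← MvPolynomial.algebraMap_eq]
  exact io.commutes c

variable (τ : K3 ≃ₐ[ℂ] K3) {v w : DVal K3}

/-- The coordinate ring of a chart. -/
noncomputable def RR : Subalgebra ℂ K3 := QK.comap (τ.symm : K3 →ₐ[ℂ] K3)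

theorem mem_RR {f : K3} : f ∈ RR τ ↔ τ.symm f ∈ QK := Subalgebra.mem_comap _ _ _

theorem mem_RR' {f : K3} : f ∈ RR τ ↔ ∃ q, f = τ (io q) := by
  rw [mem_RR, mem_QK]
  constructor
  · rintro ⟨q, hq⟩
    exact ⟨q, by rw [hq, AlgEquiv.apply_symm_apply]⟩
  · rintro ⟨q, rfl⟩
    exact ⟨q, by rw [AlgEquiv.symm_apply_apply]⟩

theorem τ_mem (q : Q3) : τ (io q) ∈ RR τ := (mem_RR' τ).2 ⟨q, rfl⟩

/-- The pull-back of a divisor. -/
noncomputable def pl (v : DVal K3) : DVal K3 where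
  ord f := v.ord (τ f)
  map_mul f g hf hg := by
    rw [map_mul]
    exact v.map_mul _ _ ((map_ne_zero _).2 hf) ((map_ne_zero _).2 hg)
  map_add f g hf hg hfg := by
    rw [map_add]
    refine v.map_add _ _ ((map_ne_zero _).2 hf) ((map_ne_zero _).2 hg) ?_
    rw [← map_add]
    exact (map_ne_zero _).2 hfg
  surj := by
    obtain ⟨f, hf, h⟩ := v.surj
    refine ⟨τ.symm f, (map_ne_zero _).2 hf, ?_⟩
    rw [AlgEquiv.apply_symm_apply]
    exact h
  const c hc := by
    rw [AlgEquiv.commutes]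
    exact v.const c hc

theorem pl_ord (f : K3) : (pl τ v).ord f = v.ord (τ f) := rfl

theorem pl_reg (f : K3) : (pl τ v).Reg f ↔ v.Reg (τ f) := by
  unfold DVal.Reg
  rw [pl_ord, map_eq_zero]

theorem pl_pos (f : K3) : (pl τ v).Pos f ↔ v.Pos (τ f) := by
  unfold DVal.Pos
  rw [pl_ord, map_eq_zero]

/-- Divisors on a chart correspond to divisors on the affine space. -/
theorem pl_divisor (hv : IsLocalRing' (RR τ) v) : IsLocalRing' QK (pl τ v) := by
  refine ⟨fun f hf => ?_, fun f hf => ?_⟩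
  · rw [pl_reg]
    exact hv.1 _ (by rw [mem_RR, AlgEquiv.symm_apply_apply]; exact hf)
  · rw [pl_reg] at hf
    obtain ⟨a, b, ha, hb, hb0, hob, hab⟩ := hv.2 _ hf
    refine ⟨τ.symm a, τ.symm b, (mem_RR τ).1 ha, (mem_RR τ).1 hb, (map_ne_zero _).2 hb0, ?_, ?_⟩
    · rw [pl_ord, AlgEquiv.apply_symm_apply]
      exact hob
    · rw [← hab, map_mul, AlgEquiv.symm_apply_apply]

theorem push_divisor (hv : IsLocalRing' QK v) : IsLocalRing' (RR τ) (pl τ.symm v) := by
  refine ⟨fun f hf => ?_, fun f hf => ?_⟩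
  · rw [pl_reg]
    exact hv.1 _ ((mem_RR τ).1 hf)
  · rw [pl_reg] at hf
    obtain ⟨a, b, ha, hb, hb0, hob, hab⟩ := hv.2 _ hf
    refine ⟨τ a, τ b, ?_, ?_, (map_ne_zero _).2 hb0, ?_, ?_⟩
    · rw [mem_RR, AlgEquiv.symm_apply_apply]; exact ha
    · rw [mem_RR, AlgEquiv.symm_apply_apply]; exact hb
    · rw [pl_ord, AlgEquiv.symm_apply_apply]
      exact hob
    · rw [← hab, map_mul, AlgEquiv.apply_symm_apply]

theorem RR_normal (f : K3) (hf : IsIntegral (RR τ) f) : f ∈ RR τ := by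
  obtain ⟨p, hp, h0⟩ := hf
  rw [mem_RR]
  refine mem_QK_of_integral ((τ.symm : K3 →+* K3).comp (algebraMap (RR τ) K3))
    (fun s => (mem_RR τ).1 s.2) hp ?_
  have h1 : (τ.symm : K3 →+* K3) (p.eval₂ (algebraMap (RR τ) K3) f) = 0 := by
    rw [h0, map_zero]
  rw [Polynomial.hom_eval₂] at h1
  exact h1

theorem RR_frac (f : K3) : ∃ a b : K3, a ∈ RR τ ∧ b ∈ RR τ ∧ b ≠ 0 ∧ f * b = a := by
  obtain ⟨p, q, hq, hf⟩ := exists_frac Q3 (τ.symm f)
  have hq' : io q ≠ 0 := (map_ne_zero_iff io io_inj).2 hq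
  refine ⟨τ (io p), τ (io q), τ_mem τ p, τ_mem τ q, (map_ne_zero _).2 hq', ?_⟩
  apply τ.symm.injective
  rw [map_mul, AlgEquiv.symm_apply_apply, AlgEquiv.symm_apply_apply, hf, ← io_apply, ← io_apply]
  field_simp

/-- The chart ring is generated by the images of the variables. -/
theorem RR_le {S : Subalgebra ℂ K3} (h : ∀ i, τ (vv i) ∈ S) : RR τ ≤ S := by
  intro f hf
  obtain ⟨q, rfl⟩ := (mem_RR' τ).1 hf
  clear hf
  induction q using MvPolynomial.induction_on with
  | C a => rw [io_C, AlgEquiv.commutes]; exact Subalgebra.algebraMap_mem _ _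
  | add p q hp hq => rw [map_add, map_add]; exact add_mem hp hq
  | mul_X p j hp => rw [map_mul, map_mul]; exact mul_mem hp (h j)

theorem der_mem_RR {D : Derivation ℂ K3 K3} (h : ∀ i, D (τ (vv i)) ∈ RR τ) {f : K3}
    (hf : f ∈ RR τ) : D f ∈ RR τ := by
  obtain ⟨q, rfl⟩ := (mem_RR' τ).1 hf
  clear hf
  induction q using MvPolynomial.induction_on with
  | C a =>
    rw [io_C, AlgEquiv.commutes, Derivation.map_algebraMap]
    exact zero_mem _
  | add p q hp hq => rw [map_add, map_add, map_add]; exact add_mem hp hq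
  | mul_X p j hp =>
    rw [map_mul, map_mul, Derivation.leibniz]
    exact add_mem (mul_mem (τ_mem τ _) (h j)) (mul_mem (τ_mem τ _) hp)

/-- If the coordinates are regular, then so are the functions on the chart. -/
theorem RR_reg (h : ∀ j, 0 ≤ v.ord (τ (vv j))) {f : K3} (hf : f ∈ RR τ) : v.Reg f := by
  obtain ⟨q, rfl⟩ := (mem_RR' τ).1 hf
  rw [← pl_reg]
  exact QK_reg (v := pl τ v) h (io_mem q)

/-- Prime polynomials give prime divisors on the affine space. -/
theorem valP_divisor {p : Q3} (hp : Prime p) : IsLocalRing' QK (valP K3 p hp) := by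
  refine ⟨fun f hf => ?_, fun f hf => ?_⟩
  · obtain ⟨q, rfl⟩ := mem_QK.1 hf
    exact valP_reg hp q
  · obtain ⟨a, b, hb, hpb, rfl⟩ := exists_frac_of_reg hp hf
    rw [← io_apply, ← io_apply]
    have hb' : io b ≠ 0 := (map_ne_zero_iff io io_inj).2 hb
    refine ⟨io a, io b, io_mem a, io_mem b, hb', ?_, by field_simp⟩
    rw [io_apply, valP_ord hp hb, multiplicity_eq_zero.2 hpb]
    rfl

theorem vv_nonneg (hv : IsLocalRing' QK v) (j : Fin 3) : 0 ≤ v.ord (vv j) :=
  v.ord_nonneg (vv_ne j) (hv.1 _ (vv_mem j))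

theorem agree_of_prime (hv : IsLocalRing' QK v) {p : Q3} (hp : Prime p) (h : v.Pos (io p)) :
    Same v (valP K3 p hp) := by
  intro f hf
  refine agree_of_key hv ?_ ?_ hf
  · intro f hf
    obtain ⟨q, rfl⟩ := mem_QK.1 hf
    exact valP_reg hp q
  · intro f hf hp'
    obtain ⟨q, rfl⟩ := mem_QK.1 hf
    have h1 := (valP_pos_iff (K := K3) hp q).1 hp'
    obtain ⟨q', rfl⟩ := h1
    rw [map_mul, mul_comm]
    exact v.pos_mul_left (hv.1 _ (io_mem _)) h

theorem agree_vX' (hv : IsLocalRing' QK v) {j : Fin 3} (hj : 0 < v.ord (vv j)) :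
    Same v (vX j) := agree_of_prime hv (prime_X j) (Or.inr hj)

/-- The value at a sum or product. -/
theorem not_pos_one (v : DVal K3) : ¬ v.Pos (1 : K3) := by
  rintro (h | h)
  · exact one_ne_zero h
  · rw [v.ord_one] at h
    omega

theorem pos_or {f g : K3} (hf : v.Reg f) (hg : v.Reg g) (h : v.Pos (f * g)) :
    v.Pos f ∨ v.Pos g := by
  by_cases hf0 : f = 0
  · exact Or.inl (Or.inl hf0)
  by_cases hg0 : g = 0
  · exact Or.inr (Or.inl hg0)
  have h1 := h.resolve_left (mul_ne_zero hf0 hg0)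
  rw [v.map_mul _ _ hf0 hg0] at h1
  have h2 := v.ord_nonneg hf0 hf
  have h3 := v.ord_nonneg hg0 hg
  by_cases h4 : 0 < v.ord f
  · exact Or.inl (Or.inr h4)
  · exact Or.inr (Or.inr (by omega))

theorem exists_prime_pos (hv : IsLocalRing' QK v) (a : Q3) :
    a ≠ 0 → v.Pos (io a) → ∃ p : Q3, Prime p ∧ p ∣ a ∧ v.Pos (io p) := by
  induction a using UniqueFactorizationMonoid.induction_on_prime with
  | h₁ => intro h; exact absurd rfl h
  | h₂ u hu =>
    intro _ hp
    exfalso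
    obtain ⟨u', hu'⟩ := hu.exists_left_inv
    have h2 := v.pos_mul_left (hv.1 _ (io_mem u')) hp
    rw [← map_mul, hu', map_one] at h2
    exact not_pos_one v h2
  | h₃ a p ha hp ih =>
    intro _ hpos
    rw [map_mul] at hpos
    rcases pos_or (hv.1 _ (io_mem p)) (hv.1 _ (io_mem a)) hpos with h | h
    · exact ⟨p, hp, dvd_mul_right _ _, h⟩
    · obtain ⟨q, hq, hqa, hq'⟩ := ih ha h
      exact ⟨q, hq, hqa.mul_left p, hq'⟩

/-- Every prime divisor on the affine space is given by a prime polynomial. -/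
theorem exists_prime (hv : IsLocalRing' QK v) : ∃ (p : Q3) (hp : Prime p), Same v (valP K3 p hp) := by
  obtain ⟨π, hπ, h1⟩ := v.surj
  obtain ⟨a, b, ha, hb, hb0, hob, hab⟩ := hv.2 π (v.reg_of_ord (by rw [h1]; norm_num))
  obtain ⟨q, rfl⟩ := mem_QK.1 ha
  have h2 : io q ≠ 0 := by
    rw [← hab]
    exact mul_ne_zero hπ hb0
  have h3 : v.Pos (io q) := by
    right
    rw [← hab, v.map_mul _ _ hπ hb0, h1, hob]
    norm_num
  obtain ⟨p, hp, _, hpos⟩ := exists_prime_pos hv q (fun h => h2 (by rw [h, map_zero])) h3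
  exact ⟨p, hp, agree_of_prime hv hp hpos⟩

/-- The chart as the image of the polynomial ring. -/
noncomputable def eRR : Q3 ≃ₐ[ℂ] RR τ :=
  (AlgEquiv.ofInjective ((τ : K3 →ₐ[ℂ] K3).comp io) (τ.injective.comp io_inj)).trans
    (Subalgebra.equivOfEq _ _ (by
      ext f
      rw [mem_RR', AlgHom.mem_range]
      constructor
      · rintro ⟨q, rfl⟩; exact ⟨q, rfl⟩
      · rintro ⟨q, rfl⟩; exact ⟨q, rfl⟩))

theorem eRR_apply (q : Q3) : (eRR τ q : K3) = τ (io q) := rfl

end Pool.Agent.H436R3.Can
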