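import Mathlib
import Pool.Agent.H436R3.Can.Tau
import Pool.Agent.H436R3.Can.Proj

/-!
# The blow-up of `(P^1)^3` at two points
-/

set_option autoImplicit false

namespace Pool.Agent.H436R3.Can

open MvPolynomial Pool.Agent.H436R3.Fol

/-- The exponents of the projective coordinates. -/
def ex : Fin 18 → Fin 3 → ℤ := ![![1,0,0], ![0,1,0], ![0,0,1], ![2,0,0], ![0,2,0], ![0,0,2],
  ![2,2,0], ![2,0,2], ![0,2,2], ![2,2,1], ![2,1,2], ![1,2,2],
  ![2,1,0], ![2,0,1], ![1,2,0], ![0,2,1], ![1,0,2], ![0,1,2]]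

/-- The index of the base chart. -/
def bs : Fin 18 → Fin 12 := ![0,1,2,3,4,5,6,7,8,9,10,11,3,3,4,4,5,5]

/-- The index of the other chart. -/
def bs' : Fin 18 → Fin 18 := ![0,1,2,3,4,5,6,7,8,9,10,11,6,7,6,8,7,8]

def c12 (i : Fin 12) : Fin 18 := i.castLE (by norm_num)

/-- The neighbours. -/
def jj : Fin 12 → Fin 3 → Fin 18 := ![![3,1,2], ![4,0,2], ![5,0,1], ![0,12,13], ![14,1,15],
  ![16,17,2], ![14,12,9], ![16,10,13], ![11,17,15], ![6,11,10], ![7,11,9], ![8,10,9]]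

/-- The inverse matrices. -/
def nn : Fin 12 → Fin 3 → Fin 3 → ℤ := ![
  ![![1,0,0],![1,1,0],![1,0,1]],
  ![![1,1,0],![1,0,0],![1,0,1]],
  ![![1,1,0],![1,0,1],![1,0,0]],
  ![![-1,0,0],![0,1,0],![0,0,1]],
  ![![1,0,0],![0,-1,0],![0,0,1]],
  ![![1,0,0],![0,1,0],![0,0,-1]],
  ![![-1,0,0],![0,-1,0],![0,0,1]],
  ![![-1,0,0],![0,1,0],![0,0,-1]],
  ![![1,0,0],![0,-1,0],![0,0,-1]],
  ![![-1,-1,0],![-1,0,-1],![-1,0,0]],
  ![![-1,-1,0],![-1,0,0],![-1,0,-1]],
  ![![-1,0,0],![-1,-1,0],![-1,0,-1]]]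

/-- The matrices. -/
def mm (i : Fin 12) (k l : Fin 3) : ℤ := ex (jj i k) l - ex (c12 i) l

theorem mm_nn : ∀ (i : Fin 12) (a k : Fin 3), mulv (mm i a) (nn i) k = ev a k := by
  decide +kernel

theorem nn_mm : ∀ (i : Fin 12) (a k : Fin 3), mulv (nn i a) (mm i) k = ev a k := by
  decide +kernel

theorem ex_nonneg : ∀ (i : Fin 12) (j : Fin 18) (k : Fin 3),
    0 ≤ mulv (fun l => ex j l - ex (c12 i) l) (nn i) k := by
  decide +kernel

theorem ex_mid : ∀ (i : Fin 18) (k : Fin 3), ex i k + ex i k = ex (c12 (bs i)) k + ex (bs' i) k := by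
  decide +kernel

/-- The pairs of matrices of the charts. -/
def mp (i : Fin 12) : MP := ⟨mm i, nn i, mm_nn i, nn_mm i⟩

/-- The projective coordinates. -/
noncomputable def yy (i : Fin 18) : K3 := mono (ex i)

theorem yy_ne (i : Fin 18) : yy i ≠ 0 := mono_ne _

theorem yy_div (i j : Fin 18) : yy j / yy i = mono fun l => ex j l - ex i l := by
  rw [yy, yy, ← mono_sub]
  rfl

theorem mono_mem_QK {e : Fin 3 → ℤ} (h : ∀ k, 0 ≤ e k) : mono e ∈ QK := by
  have h1 : ∀ k, vv k ^ e k ∈ QK := by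
    intro k
    obtain ⟨n, hn⟩ := Int.eq_ofNat_of_zero_le (h k)
    rw [hn, zpow_natCast]
    exact pow_mem (vv_mem k) n
  exact mul_mem (mul_mem (h1 0) (h1 1)) (h1 2)

theorem chart_eq (i : Fin 12) : chartOf yy (c12 i) = RR (mp i).τ := by
  apply le_antisymm
  · apply chartOf_le
    intro j
    rw [yy_div, mem_RR, MP.τs_mono]
    exact mono_mem_QK (ex_nonneg i j)
  · apply RR_le
    intro k
    rw [MP.τ_vv]
    have h1 : mono ((mp i).M k) = yy (jj i k) / yy (c12 i) := by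
      rw [yy_div]
      rfl
    rw [h1]
    exact ratio_mem _ _

theorem yy_mid (i : Fin 18) : yy i * yy i = yy (c12 (bs i)) * yy (bs' i) := by
  rw [yy, yy, yy, ← mono_add, ← mono_add]
  exact mono_congr (ex_mid i)

theorem base_le (i : Fin 18) : RR (mp (bs i)).τ ≤ chartOf yy i := by
  rw [← chart_eq]
  exact chartOf_le fun j => ratio_base yy_ne (yy_mid i) j

/-- The blow-up of `(P^1)^3` at the points `(0, 0, 0)` and `(∞, ∞, ∞)`. -/
noncomputable def XX : ProjVar K3 where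
  n := 17
  y := yy
  ne := yy_ne
  frac := by
    intro i f
    obtain ⟨a, b, ha, hb, hb0, h⟩ := RR_frac (mp (bs i)).τ f
    exact ⟨a, b, base_le i ha, base_le i hb, hb0, h⟩
  normal := by
    intro i f hf
    refine normal_of_base yy_ne (yy_mid i) (ratio_base yy_ne (yy_mid i)) ?_ hf
    rw [chart_eq]
    exact RR_normal _

theorem XX_chart (i : Fin 12) : XX.chart (c12 i) = RR (mp i).τ := chart_eq i

theorem XX_base (i : Fin 18) : RR (mp (bs i)).τ ≤ XX.chart i := base_le i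

end Pool.Agent.H436R3.Can
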