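import Mathlib
import Pool.Agent.H436R3.Can.Data

/-!
# The radial foliation and its canonical orders
-/

set_option autoImplicit false

namespace Pool.Agent.H436R3.Can

open MvPolynomial Pool.Agent.H436R3.Fol

/-- The radial vector field. -/
noncomputable def rad : Derivation ℂ K3 K3 := th 0 + th 1 + th 2

/-- The weight of a monomial. -/
def wt (e : Fin 3 → ℤ) : ℤ := e 0 + e 1 + e 2

theorem rad_mono (e : Fin 3 → ℤ) : rad (mono e) = wt e * mono e := by
  rw [rad, Derivation.add_apply, Derivation.add_apply, th_mono, th_mono, th_mono, wt]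
  push_cast
  ring

theorem rad_ne : rad ≠ 0 := by
  intro h
  have h1 := rad_mono (ev 0)
  rw [h, Derivation.coe_zero, Pi.zero_apply] at h1
  have h2 : wt (ev 0) = 1 := by decide
  rw [h2, Int.cast_one, one_mul] at h1
  exact mono_ne _ h1.symm

/-- The foliation. -/
noncomputable def fR : Foliation K3 1 where
  D := fun _ => rad
  indep := by
    rw [linearIndependent_unique_iff]
    exact rad_ne
  closed := by
    intro i j
    rw [lie_self]
    exact zero_mem _

theorem R_sum (A : Matrix (Fin 1) (Fin 1) K3) (i : Fin 1) :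
    (∑ j, A i j • fR.D j) = A.det • rad := by
  rw [Matrix.det_unique, Fin.sum_univ_one, Subsingleton.elim i 0]
  rfl

section lower

variable (v : DVal K3)

theorem R_key {h : K3} (hA : Preserves v (h • rad)) {π : K3} (hπ : π ≠ 0) (h1 : v.ord π = 1)
    (e : Fin 3 → ℤ) :
    h * wt e - (v.ord (mono e) : K3) * ((h • rad) π / π) ∈ v.O := by
  have h3 := logDer_sub v hA hπ h1 (mono_ne e)
  have h2 : (h • rad) (mono e) / mono e = h * wt e := by
    have := mono_ne e
    rw [Derivation.smul_apply, rad_mono, smul_eq_mul]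
    field_simp
  rwa [h2] at h3

theorem R_lower {A : Matrix (Fin 1) (Fin 1) K3} (hA0 : A.det ≠ 0)
    (hA : ∀ i, Preserves v (∑ j, A i j • fR.D j)) : -1 ≤ v.ord A.det := by
  obtain ⟨π, hπ, h1⟩ := v.surj
  refine v.neg_one_le hπ h1 hA0 ?_
  have h0 := hA 0
  rw [R_sum] at h0
  have h3 := reg_pi_logDer v h0 hπ h1
  have hπ' : v.Reg π := v.reg_of_ord (by rw [h1]; norm_num)
  have h6 := R_key v h0 hπ h1 (ev 0)
  have h7 : wt (ev 0) = 1 := by decide
  rw [h7, Int.cast_one, mul_one] at h6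
  have h4 := v.reg_mul hπ' h6
  have h5 : π * A.det = π * (A.det - (v.ord (mono (ev 0)) : K3) * ((A.det • rad) π / π)) +
      (v.ord (mono (ev 0)) : K3) * (π * ((A.det • rad) π / π)) := by ring
  rw [h5]
  exact v.reg_add h4 (v.reg_mul (v.reg_intCast _) h3)

/-- The lower bound at a divisor where a function of weight `± 1` is a unit. -/
theorem R_nonneg {h : K3} (hA : Preserves v (h • rad)) {e : Fin 3 → ℤ} (he : wt e = 1 ∨ wt e = -1)
    (h0 : v.ord (mono e) = 0) : v.Reg h := by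
  obtain ⟨π, hπ, h1⟩ := v.surj
  have h3 := R_key v hA hπ h1 e
  rw [h0, Int.cast_zero, zero_mul, sub_zero] at h3
  rcases he with he | he
  · rwa [he, Int.cast_one, mul_one] at h3
  · rw [he] at h3
    have h4 := neg_mem h3
    have h5 : -(h * ((-1 : ℤ) : K3)) = h := by push_cast; ring
    rwa [h5] at h4

theorem reg_inv_int {n : ℤ} (hn : n ≠ 0) : v.Reg ((n : K3)⁻¹) := by
  have h1 : (n : K3)⁻¹ = algebraMap ℂ K3 ((n : ℂ)⁻¹) := by
    rw [map_inv₀, map_intCast]
  rw [h1]
  exact v.reg_const _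

/-- The lower bound at a divisor with centre at a point of mixed type. -/
theorem R_nonneg_mixed {h : K3} (hA : Preserves v (h • rad)) {e e' : Fin 3 → ℤ} (he : wt e = 1)
    (he' : wt e' = -1) (h0 : 0 ≤ v.ord (mono e)) (h0' : 0 ≤ v.ord (mono e')) : v.Reg h := by
  obtain ⟨π, hπ, h1⟩ := v.surj
  have h3 := R_key v hA hπ h1 e
  have h4 := R_key v hA hπ h1 e'
  rw [he, Int.cast_one, mul_one] at h3
  rw [he'] at h4
  by_cases h5 : v.ord (mono e) = 0
  · exact R_nonneg v hA (Or.inl he) h5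
  have h6 : v.ord (mono e) + v.ord (mono e') ≠ 0 := by omega
  have h7 : (((v.ord (mono e) + v.ord (mono e') : ℤ) : K3))⁻¹ ∈ v.O := reg_inv_int v h6
  have h8 : (h • rad) π / π ∈ v.O := by
    have h9 : (h • rad) π / π = -(((v.ord (mono e) + v.ord (mono e') : ℤ) : K3))⁻¹ *
        ((h - (v.ord (mono e) : K3) * ((h • rad) π / π)) +
        (h * ((-1 : ℤ) : K3) - (v.ord (mono e') : K3) * ((h • rad) π / π))) := by
      have h10 : ((v.ord (mono e) + v.ord (mono e') : ℤ) : K3) ≠ 0 := Int.cast_ne_zero.2 h6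
      generalize (h • rad) π / π = β
      push_cast at h10 ⊢
      field_simp
      ring
    rw [h9]
    exact mul_mem (neg_mem h7) (add_mem h3 h4)
  have h11 : h = (h - (v.ord (mono e) : K3) * ((h • rad) π / π)) +
      (v.ord (mono e) : K3) * ((h • rad) π / π) := by ring
  rw [h11]
  exact add_mem h3 (mul_mem (v.reg_intCast _) h8)

end lower

variable {v : DVal K3}

theorem canR_zero (h1 : Preserves v rad) (h0 : ∀ h, Preserves v (h • rad) → v.Reg h) :
    IsCanOrd fR v 0 := by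
  refine isCanOrd_of 1 ?_ ?_ ?_ ?_
  · rw [Matrix.det_one]
    exact one_ne_zero
  · intro i
    rw [R_sum, Matrix.det_one, one_smul]
    exact h1
  · rw [Matrix.det_one, v.ord_one]
  · intro A hA0 hA
    have h2 := hA 0
    rw [R_sum] at h2
    exact v.ord_nonneg hA0 (h0 _ h2)

theorem canR_neg {g : K3} (hg : g ≠ 0) (h1 : Preserves v (g • rad)) (h0 : v.ord g = -1) :
    IsCanOrd fR v (-1) := by
  refine isCanOrd_of (Matrix.of fun _ _ => g) ?_ ?_ ?_ ?_
  · rw [Matrix.det_unique]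
    exact hg
  · intro i
    rw [R_sum, Matrix.det_unique]
    exact h1
  · rw [Matrix.det_unique]
    exact h0
  · intro A hA0 hA
    exact R_lower v hA0 hA

/-- The two types of charts. -/
theorem types : ∀ i : Fin 12, ((wt (mm i 0) = 1 ∨ wt (mm i 0) = -1) ∧ wt (mm i 1) = 0 ∧
    wt (mm i 2) = 0) ∨ ∃ k l, wt (mm i k) = 1 ∧ wt (mm i l) = -1 := by
  decide +kernel

section chart

variable (i : Fin 12)

/-- The coordinates of the chart. -/
theorem p_mem (k : Fin 3) : mono (mm i k) ∈ RR (mp i).τ := by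
  have := τ_mem (mp i).τ (X k)
  change (mp i).τ (vv k) ∈ RR (mp i).τ at this
  rw [MP.τ_vv] at this
  exact this

theorem pl_vv (v : DVal K3) (k : Fin 3) : (pl (mp i).τ v).ord (vv k) = v.ord (mono (mm i k)) := by
  rw [pl_ord, MP.τ_vv]
  rfl

theorem ord_lin (v : DVal K3) (e : Fin 3 → ℤ) : v.ord (mono (mulv e (mm i))) =
    e 0 * v.ord (mono (mm i 0)) + e 1 * v.ord (mono (mm i 1)) + e 2 * v.ord (mono (mm i 2)) := by
  have h1 := ord_mono (pl (mp i).τ v) e
  rw [pl_ord, MP.τ_mono, pl_vv, pl_vv, pl_vv] at h1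
  exact h1

theorem ord_vv (v : DVal K3) (j : Fin 3) : v.ord (vv j) = nn i j 0 * v.ord (mono (mm i 0)) +
    nn i j 1 * v.ord (mono (mm i 1)) + nn i j 2 * v.ord (mono (mm i 2)) := by
  rw [← ord_lin, ← mono_ev]
  congr 1
  exact mono_congr fun k => ((nn_mm i j) k).symm

theorem rad_pres (hv : IsLocalRing' (RR (mp i).τ) v) : Preserves v rad := by
  refine preserves_of v hv fun f hf => hv.1 _ (der_mem_RR (mp i).τ ?_ hf)
  intro k
  rw [MP.τ_vv, rad_mono]
  exact mul_mem (intCast_mem _ _) (p_mem i k)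

theorem radp_pres (hv : IsLocalRing' (RR (mp i).τ) v) (h1 : wt (mm i 1) = 0)
    (h2 : wt (mm i 2) = 0) : Preserves v ((mono (mm i 0))⁻¹ • rad) := by
  refine preserves_of v hv fun f hf => hv.1 _ (der_mem_RR (mp i).τ ?_ hf)
  intro k
  rw [MP.τ_vv, Derivation.smul_apply, rad_mono, smul_eq_mul]
  change (mono (mm i 0))⁻¹ * (wt (mm i k) * mono (mm i k)) ∈ _
  fin_cases k
  · change (mono (mm i 0))⁻¹ * (wt (mm i 0) * mono (mm i 0)) ∈ _
    have h3 : (mono (mm i 0))⁻¹ * (wt (mm i 0) * mono (mm i 0)) = wt (mm i 0) := by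
      have := mono_ne (mm i 0)
      field_simp
    rw [h3]
    exact intCast_mem _ _
  · change (mono (mm i 0))⁻¹ * (wt (mm i 1) * mono (mm i 1)) ∈ _
    rw [h1, Int.cast_zero, zero_mul, mul_zero]
    exact zero_mem _
  · change (mono (mm i 0))⁻¹ * (wt (mm i 2) * mono (mm i 2)) ∈ _
    rw [h2, Int.cast_zero, zero_mul, mul_zero]
    exact zero_mem _

theorem p_nonneg (hv : ∀ f ∈ RR (mp i).τ, v.Reg f) (k : Fin 3) : 0 ≤ v.ord (mono (mm i k)) :=
  v.ord_nonneg (mono_ne _) (hv _ (p_mem i k))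

theorem p_ord (hv : IsLocalRing' (RR (mp i).τ) v) {k : Fin 3} (hk : 0 < v.ord (mono (mm i k)))
    (l : Fin 3) : v.ord (mono (mm i l)) = if k = l then 1 else 0 := by
  have h1 := agree_vX' (pl_divisor (mp i).τ hv) (j := k) (by rw [pl_vv]; exact hk)
  rw [← pl_vv, h1 _ (vv_ne l), vX_ord]

/-- The canonical orders of the foliation at the divisors on a chart. -/
theorem exists_eqR : ∃ g : K3, g ≠ 0 ∧
    (∀ v, IsLocalRing' (RR (mp i).τ) v → ∃ a : ℤ, IsCanOrd fR v a ∧ a = v.ord g) ∧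
    ∀ v : DVal K3, (∀ f ∈ RR (mp i).τ, v.Reg f) → ∀ A : Matrix (Fin 1) (Fin 1) K3, A.det ≠ 0 →
      (∀ i, Preserves v (∑ j, A i j • fR.D j)) → v.ord g ≤ v.ord A.det := by
  rcases types i with ⟨h0, h1, h2⟩ | ⟨k, l, hk, hl⟩
  · refine ⟨(mono (mm i 0))⁻¹, inv_ne_zero (mono_ne _), ?_, ?_⟩
    · intro v hv
      have h3 := p_nonneg i hv.1 0
      rcases h3.eq_or_lt with h4 | h4
      · refine ⟨0, canR_zero (rad_pres i hv) (fun h hh => R_nonneg v hh h0 h4.symm), ?_⟩
        rw [v.ord_inv (mono_ne _), ← h4, neg_zero]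
      · have h5 := p_ord i hv h4 0
        rw [if_pos rfl] at h5
        refine ⟨-1, canR_neg (inv_ne_zero (mono_ne _)) (radp_pres i hv h1 h2) ?_, ?_⟩
        · rw [v.ord_inv (mono_ne _), h5]
        · rw [v.ord_inv (mono_ne _), h5]
    · intro v hv A hA0 hA
      have h3 := p_nonneg i hv 0
      rw [v.ord_inv (mono_ne _)]
      rcases h3.eq_or_lt with h4 | h4
      · rw [← h4, neg_zero]
        have h5 := hA 0
        rw [R_sum] at h5
        exact v.ord_nonneg hA0 (R_nonneg v h5 h0 h4.symm)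
      · have h5 := R_lower v hA0 hA
        omega
  · refine ⟨1, one_ne_zero, ?_, ?_⟩
    · intro v hv
      refine ⟨0, canR_zero (rad_pres i hv) (fun h hh => R_nonneg_mixed v hh hk hl
        (p_nonneg i hv.1 k) (p_nonneg i hv.1 l)), ?_⟩
      rw [v.ord_one]
    · intro v hv A hA0 hA
      rw [v.ord_one]
      have h5 := hA 0
      rw [R_sum] at h5
      exact v.ord_nonneg hA0 (R_nonneg_mixed v h5 hk hl (p_nonneg i hv k) (p_nonneg i hv l))

/-- The determinants of the matrices. -/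
theorem det_nn : ∀ i : Fin 12,
    nn i 0 0 * nn i 1 1 * nn i 2 2 - nn i 0 0 * nn i 1 2 * nn i 2 1 - nn i 0 1 * nn i 1 0 * nn i 2 2
      + nn i 0 1 * nn i 1 2 * nn i 2 0 + nn i 0 2 * nn i 1 0 * nn i 2 1
      - nn i 0 2 * nn i 1 1 * nn i 2 0 = 1 ∨
    nn i 0 0 * nn i 1 1 * nn i 2 2 - nn i 0 0 * nn i 1 2 * nn i 2 1 - nn i 0 1 * nn i 1 0 * nn i 2 2
      + nn i 0 1 * nn i 1 2 * nn i 2 0 + nn i 0 2 * nn i 1 0 * nn i 2 1
      - nn i 0 2 * nn i 1 1 * nn i 2 0 = -1 := by
  decide +kernel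

/-- A basis of vector fields on the chart. -/
noncomputable def AT (d : Fin 3 → K3) : Matrix (Fin 3) (Fin 3) K3 :=
  Matrix.of fun a l => d a * (nn i l a : K3)

theorem AT_det (d : Fin 3 → K3) :
    (AT i d).det = d 0 * d 1 * d 2 ∨ (AT i d).det = -(d 0 * d 1 * d 2) := by
  have h1 : (AT i d).det = d 0 * d 1 * d 2 *
    ((nn i 0 0 * nn i 1 1 * nn i 2 2 - nn i 0 0 * nn i 1 2 * nn i 2 1 - nn i 0 1 * nn i 1 0 * nn i 2 2
      + nn i 0 1 * nn i 1 2 * nn i 2 0 + nn i 0 2 * nn i 1 0 * nn i 2 1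
      - nn i 0 2 * nn i 1 1 * nn i 2 0 : ℤ) : K3) := by
    rw [Matrix.det_fin_three]
    simp only [AT, Matrix.of_apply]
    push_cast
    ring
  rw [h1]
  rcases det_nn i with h | h
  · left
    rw [h, Int.cast_one, mul_one]
  · right
    rw [h]
    push_cast
    ring

theorem AT_sum (d : Fin 3 → K3) (a b : Fin 3) :
    (∑ l, AT i d a l • folT.D l) (mono (mm i b)) = d a * ((ev b a : ℤ) * mono (mm i b)) := by
  rw [sum_der_apply, Fin.sum_univ_three, ← mm_nn i b a]
  change AT i d a 0 * th 0 (mono (mm i b)) + AT i d a 1 * th 1 (mono (mm i b)) +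
    AT i d a 2 * th 2 (mono (mm i b)) = _
  rw [th_mono, th_mono, th_mono]
  simp only [AT, Matrix.of_apply, mulv]
  push_cast
  ring

theorem AT_pres (hv : IsLocalRing' (RR (mp i).τ) v) (d : Fin 3 → K3)
    (hd : ∀ a, d a = 1 ∨ d a = (mono (mm i a))⁻¹) (a : Fin 3) :
    Preserves v (∑ l, AT i d a l • folT.D l) := by
  refine preserves_of v hv fun f hf => hv.1 _ (der_mem_RR (mp i).τ ?_ hf)
  intro b
  rw [MP.τ_vv]
  change (∑ l, AT i d a l • folT.D l) (mono (mm i b)) ∈ _
  rw [AT_sum, ev]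
  by_cases h : b = a
  · rw [if_pos h, Int.cast_one, one_mul, h]
    rcases hd a with h1 | h1
    · rw [h1, one_mul]
      exact p_mem i a
    · rw [h1, inv_mul_cancel₀ (mono_ne _)]
      exact one_mem _
  · rw [if_neg h, Int.cast_zero, zero_mul, mul_zero]
    exact zero_mem _

theorem ord_AT (v : DVal K3) (d : Fin 3 → K3) (hd : ∀ a, d a ≠ 0) :
    (AT i d).det ≠ 0 ∧ v.ord (AT i d).det = v.ord (d 0) + v.ord (d 1) + v.ord (d 2) := by
  have h1 : d 0 * d 1 * d 2 ≠ 0 := mul_ne_zero (mul_ne_zero (hd 0) (hd 1)) (hd 2)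
  have h2 : v.ord (d 0 * d 1 * d 2) = v.ord (d 0) + v.ord (d 1) + v.ord (d 2) := by
    rw [v.map_mul _ _ (mul_ne_zero (hd 0) (hd 1)) (hd 2), v.map_mul _ _ (hd 0) (hd 1)]
  rcases AT_det i d with h | h
  · rw [h]
    exact ⟨h1, h2⟩
  · rw [h]
    exact ⟨neg_ne_zero.2 h1, by rw [v.ord_neg h1, h2]⟩

/-- The local equation of the canonical divisor. -/
noncomputable def gT : K3 := (mono (mm i 0) * mono (mm i 1) * mono (mm i 2))⁻¹

theorem gT_ne : gT i ≠ 0 :=
  inv_ne_zero (mul_ne_zero (mul_ne_zero (mono_ne _) (mono_ne _)) (mono_ne _))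

theorem ord_gT (v : DVal K3) : v.ord (gT i) =
    -(v.ord (mono (mm i 0)) + v.ord (mono (mm i 1)) + v.ord (mono (mm i 2))) := by
  rw [gT, v.ord_inv (mul_ne_zero (mul_ne_zero (mono_ne _) (mono_ne _)) (mono_ne _)),
    v.map_mul _ _ (mul_ne_zero (mono_ne _) (mono_ne _)) (mono_ne _),
    v.map_mul _ _ (mono_ne _) (mono_ne _)]

theorem canT (hv : IsLocalRing' (RR (mp i).τ) v) :
    ∃ a : ℤ, IsCanOrd folT v a ∧ a = v.ord (gT i) := by
  by_cases h : ∃ k, 0 < v.ord (mono (mm i k))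
  · obtain ⟨k, hk⟩ := h
    have e := p_ord i hv hk
    have hd : ∀ a, (Function.update (1 : Fin 3 → K3) k (mono (mm i k))⁻¹) a ≠ 0 := by
      intro a
      by_cases ha : a = k
      · subst ha
        rw [Function.update_self]
        exact inv_ne_zero (mono_ne _)
      · rw [Function.update_of_ne ha]
        exact one_ne_zero
    obtain ⟨h1, h2⟩ := ord_AT i v _ hd
    refine ⟨-1, isCanOrd_of (AT i (Function.update (1 : Fin 3 → K3) k (mono (mm i k))⁻¹)) h1
      (AT_pres i hv _ ?_) ?_ ?_, ?_⟩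
    · intro a
      by_cases ha : a = k
      · subst ha
        rw [Function.update_self]
        exact Or.inr rfl
      · rw [Function.update_of_ne ha]
        exact Or.inl rfl
    · rw [h2]
      have h3 : ∀ a, v.ord ((Function.update (1 : Fin 3 → K3) k (mono (mm i k))⁻¹) a) =
          if k = a then -1 else 0 := by
        intro a
        by_cases ha : a = k
        · subst ha
          rw [Function.update_self, if_pos rfl, v.ord_inv (mono_ne _), e, if_pos rfl]
        · rw [Function.update_of_ne ha, if_neg fun h => ha h.symm, Pi.one_apply, v.ord_one]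
      rw [h3, h3, h3]
      fin_cases k <;> simp
    · intro A hA0 hA
      exact T_lower v hA0 hA
    · rw [ord_gT, e, e, e]
      fin_cases k <;> simp
  · have e : ∀ k, v.ord (mono (mm i k)) = 0 := by
      intro k
      have h1 := p_nonneg i hv.1 k
      rw [not_exists] at h
      have h2 := h k
      omega
    obtain ⟨h1, h2⟩ := ord_AT i v 1 (fun a => one_ne_zero)
    refine ⟨0, isCanOrd_of (AT i 1) h1 (AT_pres i hv _ fun a => Or.inl rfl) ?_ ?_, ?_⟩
    · rw [h2]
      simp only [Pi.one_apply]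
      rw [v.ord_one]
      rfl
    · intro A hA0 hA
      refine T_lower_zero v hA0 hA ?_
      intro j
      rw [ord_vv i, e, e, e]
      ring
    · rw [ord_gT, e, e, e]
      rfl

/-- The lower bound for the canonical orders of the tangent sheaf. -/
theorem lower_T (hv : ∀ f ∈ RR (mp i).τ, v.Reg f) : ∃ c : ℤ, -1 < c - v.ord (gT i) ∧
    ∀ A : Matrix (Fin 3) (Fin 3) K3, A.det ≠ 0 →
      (∀ i, Preserves v (∑ j, A i j • folT.D j)) → c ≤ v.ord A.det := by
  have h0 := p_nonneg i hv 0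
  have h1 := p_nonneg i hv 1
  have h2 := p_nonneg i hv 2
  rw [ord_gT]
  by_cases h : v.ord (mono (mm i 0)) + v.ord (mono (mm i 1)) + v.ord (mono (mm i 2)) = 0
  · refine ⟨0, by omega, fun A hA0 hA => T_lower_zero v hA0 hA ?_⟩
    intro j
    have e0 : v.ord (mono (mm i 0)) = 0 := by omega
    have e1 : v.ord (mono (mm i 1)) = 0 := by omega
    have e2 : v.ord (mono (mm i 2)) = 0 := by omega
    rw [ord_vv i, e0, e1, e2]
    ring
  · exact ⟨-1, by omega, fun A hA0 hA => T_lower v hA0 hA⟩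

end chart

section points

variable {P : Pt XX}

theorem on_base (hv : IsLocalRing' (XX.chart P.i) v) :
    IsLocalRing' (RR (mp (bs P.i)).τ) v := by
  rw [← chart_eq]
  refine on_chart yy_ne (i' := P.i) hv fun f hf => hv.1 f ?_
  rw [chart_eq] at hf
  exact XX_base _ hf

theorem over_base (hv : OverAt P v) {f : K3} (hf : f ∈ RR (mp (bs P.i)).τ) : v.Reg f := by
  obtain ⟨⟨S, _, hS, hSv⟩, _⟩ := hv
  exact hSv.1 f (hS (XX_base _ hf))

end points

/-- The foliation is canonical. -/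
theorem canonical_XX : IsCanonical XX fR := by
  intro P
  obtain ⟨g, hg, h1, h2⟩ := exists_eqR (bs P.i)
  refine ⟨1, g, ⟨one_pos, hg, fun v hv => ?_⟩, fun v hv => ?_⟩
  · obtain ⟨a, ha, hag⟩ := h1 v (on_base hv.1)
    exact ⟨a, ha, by rw [Nat.cast_one, one_mul]; exact hag⟩
  · obtain ⟨a, ha, hag⟩ := exists_isCanOrd (X := XX.aff P.i) v hv.1 fR
      (h2 v fun f hf => over_base hv hf)
    exact ⟨a, ha, by rw [Nat.cast_one, one_mul]; omega⟩

/-- The variety is klt. -/
theorem klt_XX : IsKlt XX folT := by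
  intro P
  refine ⟨1, gT (bs P.i), ⟨one_pos, gT_ne _, fun v hv => ?_⟩, fun v hv => ?_⟩
  · obtain ⟨a, ha, hag⟩ := canT _ (on_base hv.1)
    exact ⟨a, ha, by rw [Nat.cast_one, one_mul]; exact hag⟩
  · obtain ⟨c, hc, hc'⟩ := lower_T (bs P.i) (v := v) fun f hf => over_base hv hf
    obtain ⟨a, ha, hag⟩ := exists_isCanOrd (X := XX.aff P.i) v hv.1 folT hc'
    refine ⟨a, ha, ?_⟩
    rw [Nat.cast_one, one_mul]
    omega

/-- The variety is `ℚ`-factorial. -/
theorem qfactorial_XX : IsQFactorial XX := by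
  rintro v -
  refine ⟨1, one_pos, fun P => ?_⟩
  by_cases h : ∃ u, OnAt P u ∧ Same u v
  · obtain ⟨u0, hu0, hs0⟩ := h
    obtain ⟨p, hp, hpu⟩ := exists_prime (pl_divisor _ (on_base hu0.1))
    have hp0 : io p ≠ 0 := (map_ne_zero_iff io io_inj).2 hp.ne_zero
    have hg : (mp (bs P.i)).τ (io p) ≠ 0 := (map_ne_zero _).2 hp0
    refine ⟨(mp (bs P.i)).τ (io p), hg, fun u hu => ⟨fun hs => ?_, fun hs => ?_⟩⟩
    · rw [hs _ hg, ← hs0 _ hg, ← pl_ord, hpu _ hp0, io_apply, valP_ord hp hp.ne_zero,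
        multiplicity_self]
    · by_contra hne
      have h1 := on_base hu.1
      have h2 := u.ord_nonneg hg (h1.1 _ (τ_mem _ p))
      have h3 : (pl (mp (bs P.i)).τ u).Pos (io p) := by
        rw [pl_pos]
        right
        omega
      have h4 := agree_of_prime (pl_divisor _ h1) hp h3
      apply hs
      intro f hf
      have hf' : (mp (bs P.i)).τ.symm f ≠ 0 := (map_ne_zero _).2 hf
      have h5 := h4 _ hf'
      have h6 := hpu _ hf'
      rw [pl_ord, AlgEquiv.apply_symm_apply] at h5 h6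
      rw [h5, ← h6, hs0 f hf]
  · refine ⟨1, one_ne_zero, fun u hu => ⟨fun hs => absurd ⟨u, hu, hs⟩ h, fun _ => u.ord_one⟩⟩

end Pool.Agent.H436R3.Can
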