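import Mathlib
import Pool.Agent.H436R3.Can.Fols
import Pool.Agent.H436R3.Adj.Glob

/-!
# The foliation is algebraically integrable
-/

set_option autoImplicit false

namespace Pool.Agent.H436R3.Can

open MvPolynomial Pool.Agent.H436R3.Fol

/-- The plane. -/
noncomputable def plane : Variety Adj.K2 where
  m := 1
  pos := one_pos
  B := fun _ => Adj.QK
  fg := by
    intro _
    have h1 : Adj.QK = Algebra.adjoin ℂ (Set.range Adj.xx) := by
      rw [Algebra.adjoin_range_eq_range_aeval, Adj.aeval_xx]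
      rfl
    rw [h1]
    exact ⟨(Set.finite_range Adj.xx).toFinset, by rw [Set.Finite.coe_toFinset]⟩
  frac := by
    intro _ f
    obtain ⟨p, q, hq, rfl⟩ := exists_frac Adj.Q2 f
    have hq' : Adj.jo q ≠ 0 := (map_ne_zero_iff Adj.jo Adj.jo_inj).2 hq
    refine ⟨Adj.jo p, Adj.jo q, Adj.jo_mem p, Adj.jo_mem q, hq', ?_⟩
    rw [← Adj.jo_apply, ← Adj.jo_apply]
    field_simp
  normal := by
    intro _ f hf
    obtain ⟨p, hp, h0⟩ := hf
    exact Adj.mem_QK_of_integral (algebraMap Adj.QK Adj.K2) (fun s => s.2) hp h0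
  separated := fun _ _ _ _ _ => rfl

/-- The first integrals `x / z` and `y / z`. -/
noncomputable def fi : Fin 2 → K3 := ![mono ![1, 0, -1], mono ![0, 1, -1]]

theorem fi_ind : AlgebraicIndependent ℂ fi := by
  apply Pool.Agent.H135R2.VS.algInd_of_der
  intro v
  refine ⟨(v 0 / fi 0) • th 0 + (v 1 / fi 1) • th 1, fun j => ?_⟩
  rw [Derivation.add_apply, Derivation.smul_apply, Derivation.smul_apply, smul_eq_mul, smul_eq_mul]
  fin_cases j
  · change v 0 / mono ![1, 0, -1] * th 0 (mono ![1, 0, -1]) +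
      v 1 / mono ![0, 1, -1] * th 1 (mono ![1, 0, -1]) = v 0
    have := mono_ne ![1, 0, -1]
    rw [th_mono, th_mono]
    simp
    field_simp
  · change v 0 / mono ![1, 0, -1] * th 0 (mono ![0, 1, -1]) +
      v 1 / mono ![0, 1, -1] * th 1 (mono ![0, 1, -1]) = v 1
    have := mono_ne ![0, 1, -1]
    rw [th_mono, th_mono]
    simp
    field_simp

theorem fi_inj : Function.Injective (aeval fi : Adj.Q2 →ₐ[ℂ] K3) :=
  algebraicIndependent_iff_injective_aeval.1 fi_ind

/-- The rational map `(x / z, y / z)` to the plane. -/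
noncomputable def ιp : Adj.K2 →ₐ[ℂ] K3 :=
  IsFractionRing.liftAlgHom (A := Adj.Q2) (g := aeval fi) fi_inj

theorem ιp_jo (q : Adj.Q2) : ιp (Adj.jo q) = aeval fi q :=
  IsFractionRing.lift_algebraMap fi_inj q

theorem ιp_xx (j : Fin 2) : ιp (Adj.xx j) = fi j := by
  rw [Adj.xx, ιp_jo, aeval_X]

/-- A derivation killing the two first integrals kills the functions on the plane. -/
theorem kill {D : Derivation ℂ K3 K3} (h : ∀ j, D (fi j) = 0) (a : Adj.K2) : D (ιp a) = 0 := by
  have h1 : ∀ q : Adj.Q2, D (ιp (Adj.jo q)) = 0 := by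
    intro q
    rw [ιp_jo]
    induction q using MvPolynomial.induction_on with
    | C a => rw [← MvPolynomial.algebraMap_eq, AlgHom.commutes, Derivation.map_algebraMap]
    | add p q hp hq => rw [map_add, map_add, hp, hq, add_zero]
    | mul_X p j hp =>
      rw [map_mul, Derivation.leibniz, hp, aeval_X, h j, smul_zero, smul_zero, add_zero]
  obtain ⟨p, q, hq, rfl⟩ := exists_frac Adj.Q2 a
  rw [← Adj.jo_apply, ← Adj.jo_apply, map_div₀, Derivation.leibniz_div, h1, h1]
  simp

theorem rad_fi (j : Fin 2) : rad (fi j) = 0 := by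
  fin_cases j
  · change rad (mono ![1, 0, -1]) = 0
    rw [rad_mono]
    simp [wt]
  · change rad (mono ![0, 1, -1]) = 0
    rw [rad_mono]
    simp [wt]

theorem mem_space {D : Derivation ℂ K3 K3} : D ∈ fR.space ↔ ∃ h : K3, D = h • rad := by
  have h1 : Set.range fR.D = {rad} := by
    ext E
    rw [Set.mem_range, Set.mem_singleton_iff]
    constructor
    · rintro ⟨_, rfl⟩; rfl
    · rintro rfl; exact ⟨0, rfl⟩
  rw [Foliation.space, h1, Submodule.mem_span_singleton]
  exact ⟨fun ⟨h, hh⟩ => ⟨h, hh.symm⟩, fun ⟨h, hh⟩ => ⟨h, hh.symm⟩⟩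

theorem induces : Induces ιp fR := by
  intro D
  rw [mem_space]
  constructor
  · rintro ⟨h, rfl⟩
    apply kill
    intro j
    rw [Derivation.smul_apply, rad_fi, smul_zero]
  · intro hD
    have h0 := hD (Adj.xx 0)
    have h1 := hD (Adj.xx 1)
    rw [ιp_xx] at h0 h1
    change D (mono ![1, 0, -1]) = 0 at h0
    change D (mono ![0, 1, -1]) = 0 at h1
    have h2 := logDer_mono D ![1, 0, -1]
    have h3 := logDer_mono D ![0, 1, -1]
    rw [h0, zero_div] at h2
    rw [h1, zero_div] at h3
    simp at h2 h3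
    refine ⟨D (vv 2) / vv 2, ?_⟩
    have e0 : D (vv 0) / vv 0 = D (vv 2) / vv 2 := by linear_combination -h2
    have e1 : D (vv 1) / vv 1 = D (vv 2) / vv 2 := by linear_combination -h3
    have h4 := der_eq_sum D
    rw [Fin.sum_univ_three, e0, e1] at h4
    rw [rad, smul_add, smul_add]
    exact h4

theorem algIntegrable : IsAlgIntegrable fR :=
  ⟨Adj.K2, inferInstance, inferInstance, plane, ιp, induces⟩

end Pool.Agent.H436R3.Can
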