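import Mathlib
import Pool.Agent.H436R3.Can.Fols

/-!
# First integrals and the weight decomposition; points of the charts
-/

set_option autoImplicit false

namespace Pool.Agent.H436R3.Can

open MvPolynomial Pool.Agent.H436R3.Fol

/-- The weight of the exponents. -/
def W (w : Fin 3 → ℤ) (m : Fin 3 →₀ ℕ) : ℤ := m 0 * w 0 + m 1 * w 1 + m 2 * w 2

/-- The component of weight `n`. -/
noncomputable def comp (w : Fin 3 → ℤ) (n : ℤ) (q : Q3) : Q3 :=
  ∑ m ∈ q.support with W w m = n, monomial m (q.coeff m)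

theorem coeff_comp (w : Fin 3 → ℤ) (n : ℤ) (q : Q3) (m : Fin 3 →₀ ℕ) :
    (comp w n q).coeff m = if W w m = n then q.coeff m else 0 := by
  classical
  rw [comp, coeff_sum]
  simp only [coeff_monomial, Finset.sum_ite_eq', Finset.mem_filter, mem_support_iff]
  by_cases h1 : W w m = n
  · by_cases h2 : q.coeff m = 0
    · simp [h2]
    · rw [if_pos ⟨h2, h1⟩, if_pos h1]
  · rw [if_neg fun h => h1 h.2, if_neg h1]

theorem sum_comp (w : Fin 3 → ℤ) (q : Q3) {S : Finset ℤ} (hS : ∀ m ∈ q.support, W w m ∈ S) :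
    ∑ n ∈ S, comp w n q = q := by
  conv_rhs => rw [q.as_sum]
  exact Finset.sum_fiberwise_of_maps_to hS _

theorem io_mono (m : Fin 3 →₀ ℕ) (c : ℂ) :
    io (monomial m c) = algebraMap ℂ K3 c * mono fun k => (m k : ℤ) := by
  rw [io_monomial, mono]
  simp only [zpow_natCast]
  rfl

variable (i : Fin 12)

/-- The weights of the coordinates of a chart. -/
def ww (k : Fin 3) : ℤ := wt (mm i k)

theorem wt_mulv (e : Fin 3 → ℤ) : wt (mulv e (mm i)) = e 0 * ww i 0 + e 1 * ww i 1 + e 2 * ww i 2 := by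
  simp only [wt, mulv, ww]
  ring

theorem rad_monomial (m : Fin 3 →₀ ℕ) (c : ℂ) : rad ((mp i).τ (io (monomial m c))) =
    W (ww i) m * (mp i).τ (io (monomial m c)) := by
  rw [io_mono, map_mul, AlgEquiv.commutes, MP.τ_mono, Derivation.leibniz, rad_mono,
    Derivation.map_algebraMap, smul_zero, add_zero, smul_eq_mul]
  have h1 : wt (mulv (fun k => (m k : ℤ)) (mp i).M) = W (ww i) m := wt_mulv i _
  rw [h1]
  ring

theorem rad_comp (n : ℤ) (q : Q3) : rad ((mp i).τ (io (comp (ww i) n q))) =
    n * (mp i).τ (io (comp (ww i) n q)) := by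
  rw [comp, map_sum, map_sum, map_sum, Finset.mul_sum]
  refine Finset.sum_congr rfl fun m hm => ?_
  rw [rad_monomial, (Finset.mem_filter.1 hm).2]

/-- Eigenvectors for different eigenvalues are linearly independent. -/
theorem eig (D : Derivation ℂ K3 K3) (S : Finset ℤ) :
    ∀ u : ℤ → K3, (∀ n ∈ S, D (u n) = n * u n) → ∑ n ∈ S, u n = 0 → ∀ n ∈ S, u n = 0 := by
  classical
  induction S using Finset.induction_on with
  | empty => intro u _ _ n hn; exact absurd hn (Finset.notMem_empty n)
  | insert a S ha ih =>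
    intro u hu h0
    rw [Finset.sum_insert ha] at h0
    have h1 := congrArg D h0
    rw [map_add, map_sum, map_zero, hu a (Finset.mem_insert_self _ _)] at h1
    have h2 : ∑ n ∈ S, ((n : K3) - a) * u n = 0 := by
      have h3 : ∑ n ∈ S, D (u n) = ∑ n ∈ S, (n : K3) * u n :=
        Finset.sum_congr rfl fun n hn => hu n (Finset.mem_insert_of_mem hn)
      rw [h3] at h1
      simp only [sub_mul]
      rw [Finset.sum_sub_distrib, ← Finset.mul_sum]
      linear_combination h1 - a * h0
    have h4 : ∀ n ∈ S, ((n : K3) - a) * u n = 0 := by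
      refine ih (fun n => ((n : K3) - a) * u n) ?_ h2
      intro n hn
      have h5 : D ((n : K3) - a) = 0 := by
        have h6 : ((n : K3) - a) = algebraMap ℂ K3 ((n : ℂ) - a) := by
          rw [map_sub, map_intCast, map_intCast]
        rw [h6, Derivation.map_algebraMap]
      rw [Derivation.leibniz, h5, smul_zero, add_zero, smul_eq_mul,
        hu n (Finset.mem_insert_of_mem hn)]
      ring
    have h5 : ∀ n ∈ S, u n = 0 := by
      intro n hn
      have h6 : (n : K3) - a ≠ 0 := by
        rw [sub_ne_zero]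
        intro h
        apply ha
        have : n = a := by exact_mod_cast h
        rwa [← this]
      exact (mul_eq_zero.1 (h4 n hn)).resolve_left h6
    intro n hn
    rcases Finset.mem_insert.1 hn with rfl | hn
    · rw [Finset.sum_eq_zero h5, add_zero] at h0
      exact h0
    · exact h5 n hn

/-- A first integral which is a fraction is a fraction of elements of weight zero. -/
theorem weight_zero {f : K3} {A B : Q3} (hf : rad f = 0)
    (h : f * (mp i).τ (io B) = (mp i).τ (io A)) :
    f * (mp i).τ (io (comp (ww i) 0 B)) = (mp i).τ (io (comp (ww i) 0 A)) := by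
  classical
  set S : Finset ℤ := insert 0 ((A.support ∪ B.support).image (W (ww i))) with hS
  have hA : ∀ m ∈ A.support, W (ww i) m ∈ S := fun m hm =>
    Finset.mem_insert_of_mem (Finset.mem_image_of_mem _ (Finset.mem_union_left _ hm))
  have hB : ∀ m ∈ B.support, W (ww i) m ∈ S := fun m hm =>
    Finset.mem_insert_of_mem (Finset.mem_image_of_mem _ (Finset.mem_union_right _ hm))
  have h1 := eig rad S (fun n => (mp i).τ (io (comp (ww i) n A)) -
    f * (mp i).τ (io (comp (ww i) n B))) ?_ ?_ 0 (Finset.mem_insert_self _ _)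
  · exact (sub_eq_zero.1 h1).symm
  · intro n _
    rw [map_sub, rad_comp, Derivation.leibniz, hf, smul_zero, add_zero, rad_comp, smul_eq_mul]
    ring
  · rw [Finset.sum_sub_distrib, ← Finset.mul_sum, ← map_sum, ← map_sum, ← map_sum, ← map_sum,
      sum_comp _ _ hA, sum_comp _ _ hB, h, sub_self]

/-- The closed point of a chart with given coordinates. -/
noncomputable def ptAt (c : Fin 3 → ℂ) : Pt XX where
  i := c12 i
  φ := (aeval c : Q3 →ₐ[ℂ] ℂ).comp ((eRR (mp i).τ).symm.toAlgHom.comp
    (Subalgebra.equivOfEq _ _ (XX_chart i)).toAlgHom)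

theorem ptAt_φ (c : Fin 3 → ℂ) (f : XX.chart (c12 i)) (q : Q3) (h : (f : K3) = (mp i).τ (io q)) :
    (ptAt i c).φ f = aeval c q := by
  have h1 : Subalgebra.equivOfEq _ _ (XX_chart i) f = eRR (mp i).τ q := by
    apply Subtype.ext
    rw [eRR_apply, ← h]
    rfl
  change aeval c ((eRR (mp i).τ).symm (Subalgebra.equivOfEq _ _ (XX_chart i) f)) = _
  rw [h1, AlgEquiv.symm_apply_apply]

theorem ptAt_local {c : Fin 3 → ℂ} {f : K3} (hf : f ∈ localRing (ptAt i c)) :
    ∃ A B : Q3, (aeval c B : ℂ) ≠ 0 ∧ f * (mp i).τ (io B) = (mp i).τ (io A) := by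
  obtain ⟨a, b, hb, hab⟩ := hf
  have ha' : (a : K3) ∈ RR (mp i).τ := by
    rw [← XX_chart]
    exact a.2
  have hb' : (b : K3) ∈ RR (mp i).τ := by
    rw [← XX_chart]
    exact b.2
  obtain ⟨A, hA⟩ := (mem_RR' _).1 ha'
  obtain ⟨B, hB⟩ := (mem_RR' _).1 hb'
  refine ⟨A, B, ?_, ?_⟩
  · rw [← ptAt_φ i c b B hB]
    exact hb
  · rw [← hA, ← hB]
    exact hab

end Pool.Agent.H436R3.Can
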