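import Mathlib
import Pool.Agent.H436R3.Can.Weight

/-!
# First integrals that are regular along a line in an exceptional plane are constant
-/

set_option autoImplicit false

namespace Pool.Agent.H436R3.Can

open MvPolynomial Pool.Agent.H436R3.Fol

/-- Restriction to the line. -/
noncomputable def psi : Q3 →ₐ[ℂ] Polynomial ℂ := aeval ![0, Polynomial.X, 0]

theorem psi_eval (s : ℂ) (q : Q3) : (psi q).eval s = aeval ![0, s, 0] q := by
  have h : ((Polynomial.aeval s : Polynomial ℂ →ₐ[ℂ] ℂ).comp psi) = aeval ![0, s, 0] := by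
    apply MvPolynomial.algHom_ext
    intro i
    rw [AlgHom.comp_apply, psi, aeval_X, aeval_X]
    fin_cases i <;> simp
  have h1 := DFunLike.congr_fun h q
  rw [AlgHom.comp_apply, Polynomial.coe_aeval_eq_eval] at h1
  exact h1

theorem psi_degree (q : Q3) : (psi q).natDegree ≤ q.totalDegree := by
  have h := MvPolynomial.aeval_natDegree_le (m := q.totalDegree) (n := 1) q le_rfl
    ![0, Polynomial.X, 0] (by
      intro i
      fin_cases i <;> simp)
  rw [mul_one] at h
  exact h

/-- The exponents. -/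
noncomputable def pr3 (a b c : ℕ) : Fin 3 →₀ ℕ := Finsupp.equivFunOnFinite.symm ![a, b, c]

theorem pr3_zero (a b c : ℕ) : pr3 a b c 0 = a := rfl
theorem pr3_one (a b c : ℕ) : pr3 a b c 1 = b := rfl
theorem pr3_two (a b c : ℕ) : pr3 a b c 2 = c := rfl

theorem pr3_sum (a b c : ℕ) : ((pr3 a b c).sum fun _ e => e) = a + b + c := by
  rw [Finsupp.sum_fintype _ _ (by simp), Fin.sum_univ_three]
  rfl

/-- The polynomial in the coordinates of the other chart. -/
noncomputable def star (M : ℕ) (q : Q3) : Q3 :=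
  ∑ m ∈ q.support, monomial (pr3 0 (M - m 1 - m 2) (m 2)) (q.coeff m)

theorem star_degree (M : ℕ) {q : Q3} (h : ∀ m ∈ q.support, m 1 + m 2 ≤ M) :
    (star M q).totalDegree ≤ M := by
  apply totalDegree_finsetSum_le
  intro m hm
  refine (totalDegree_monomial_le _ _).trans ?_
  have h1 := pr3_sum 0 (M - m 1 - m 2) (m 2)
  have h2 := h m hm
  change ((pr3 0 (M - m 1 - m 2) (m 2)).sum fun _ e => e) ≤ M
  rw [h1]
  omega

theorem psi_monomial (m : Fin 3 →₀ ℕ) (c : ℂ) :
    psi (monomial m c) = Polynomial.C c * (0 ^ m 0 * Polynomial.X ^ m 1 * 0 ^ m 2) := by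
  rw [psi, aeval_monomial, Finsupp.prod_fintype _ _ (by simp), Fin.prod_univ_three]
  rfl

theorem star_coeff (M : ℕ) {q : Q3} (h : ∀ m ∈ q.support, m 1 + m 2 ≤ M)
    (h0 : ∀ m ∈ q.support, m 0 = 0) : (psi (star M q)).coeff M = q.coeff 0 := by
  classical
  rw [star, map_sum, Polynomial.finset_sum_coeff]
  have h1 : ∀ m ∈ q.support, (psi (monomial (pr3 0 (M - m 1 - m 2) (m 2)) (q.coeff m))).coeff M =
      if m = 0 then q.coeff 0 else 0 := by
    intro m hm
    have h2 := h m hm
    have h3 := h0 m hm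
    rw [psi_monomial, pr3_zero, pr3_one, pr3_two, pow_zero, one_mul, Polynomial.coeff_C_mul]
    by_cases hm0 : m = 0
    · subst hm0
      simp
    · rw [if_neg hm0]
      by_cases h4 : m 2 = 0
      · have h5 : m 1 ≠ 0 := by
          intro h5
          apply hm0
          ext k
          fin_cases k
          · exact h3
          · exact h5
          · exact h4
        rw [h4, pow_zero, mul_one, Polynomial.coeff_X_pow, if_neg (by omega), mul_zero]
      · rw [zero_pow h4, mul_zero, Polynomial.coeff_zero, mul_zero]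
  rw [Finset.sum_congr rfl h1, Finset.sum_ite_eq']
  by_cases h4 : (0 : Fin 3 →₀ ℕ) ∈ q.support
  · rw [if_pos h4]
  · rw [if_neg h4]
    rw [mem_support_iff, not_not] at h4
    exact h4.symm

/-- The exponents in the other chart. -/
theorem trans_exp (a b : ℤ) : ∀ k, mulv (mulv ![0, a, b] (mm 10)) (nn 11) k =
    ![0, -a - b, b] k := by
  have h1 : mm 10 = ![![0,-1,0],![-1,1,0],![0,1,-1]] := by
    have : ∀ k l, mm 10 k l = (![![0,-1,0],![-1,1,0],![0,1,-1]] : Fin 3 → Fin 3 → ℤ) k l := by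
      decide +kernel
    funext k l
    exact this k l
  have h2 : nn 11 = ![![-1,0,0],![-1,-1,0],![-1,0,-1]] := by
    have : ∀ k l, nn 11 k l = (![![-1,0,0],![-1,-1,0],![-1,0,-1]] : Fin 3 → Fin 3 → ℤ) k l := by
      decide +kernel
    funext k l
    exact this k l
  intro k
  rw [h1, h2]
  fin_cases k
  · simp [mulv]
  · simp [mulv]
    ring
  · simp [mulv]

theorem io_star (M : ℕ) {q : Q3} (h : ∀ m ∈ q.support, m 1 + m 2 ≤ M)
    (h0 : ∀ m ∈ q.support, m 0 = 0) :
    io (star M q) = vv 1 ^ M * (mp 11).τ.symm ((mp 10).τ (io q)) := by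
  have h1 : io q = ∑ m ∈ q.support, io (monomial m (q.coeff m)) := by
    conv_lhs => rw [q.as_sum]
    rw [map_sum]
  rw [h1, map_sum, map_sum, Finset.mul_sum, star, map_sum]
  refine Finset.sum_congr rfl fun m hm => ?_
  rw [io_mono, io_mono, map_mul, map_mul, AlgEquiv.commutes, AlgEquiv.commutes, MP.τ_mono,
    MP.τs_mono]
  have h2 := h m hm
  have h3 : mono (mulv (mulv (fun k => (m k : ℤ)) (mp 10).M) (mp 11).N) =
      mono ![0, -(m 1 : ℤ) - m 2, m 2] := by
    have h4 : (fun k => (m k : ℤ)) = ![0, (m 1 : ℤ), m 2] := by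
      funext k
      fin_cases k
      · change (m 0 : ℤ) = 0
        rw [h0 m hm]
        rfl
      · rfl
      · rfl
    rw [h4]
    exact mono_congr (trans_exp _ _)
  rw [h3]
  have h5 : vv 1 ^ M = mono ![0, M, 0] := by
    simp [mono]
  have h6 : (mono fun k => ((pr3 0 (M - m 1 - m 2) (m 2) k : ℕ) : ℤ)) =
      mono ![0, M, 0] * mono ![0, -(m 1 : ℤ) - m 2, m 2] := by
    rw [← mono_add]
    apply mono_congr
    intro k
    fin_cases k
    · simp [pr3_zero]
    · simp only [pr3_one, Fin.mk_one, Pi.add_apply, Matrix.cons_val_one, Matrix.cons_val_zero]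
      omega
    · simp [pr3_two]
  rw [h5, h6]
  ring

theorem exists_M (q : Q3) : ∃ M : ℕ, ∀ m ∈ q.support, m 1 + m 2 ≤ M :=
  ⟨q.support.sup fun m => m 1 + m 2, fun _ hm => Finset.le_sup (f := fun m => m 1 + m 2) hm⟩

theorem comp_ten {q : Q3} {m : Fin 3 →₀ ℕ} (hm : m ∈ (comp (ww 10) 0 q).support) :
    m 0 = 0 := by
  rw [mem_support_iff, coeff_comp] at hm
  by_cases h : W (ww 10) m = 0
  · have e0 : ww 10 0 = -1 := by decide +kernel
    have e1 : ww 10 1 = 0 := by decide +kernel
    have e2 : ww 10 2 = 0 := by decide +kernel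
    rw [W, e0, e1, e2] at h
    omega
  · rw [if_neg h] at hm
    exact absurd rfl hm

theorem step3 {f : K3} (hr : rad f = 0) (h11 : ∀ s : ℂ, f ∈ localRing (ptAt 11 ![0, s, 0]))
    (h10 : f ∈ localRing (ptAt 10 0)) : ∃ c : ℂ, f = algebraMap ℂ K3 c := by
  obtain ⟨G, H, hGH, hH0, hx⟩ : ∃ G H : Q3, IsRelPrime G H ∧ H ≠ 0 ∧
      io G / io H = (mp 11).τ.symm f := by
    obtain ⟨G, H, hGH, hx⟩ := IsFractionRing.exists_reduced_fraction (A := Q3) ((mp 11).τ.symm f)
    rw [IsFractionRing.mk'_eq_div, ← io_apply, ← io_apply] at hx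
    exact ⟨G, H, hGH, nonZeroDivisors.ne_zero H.2, hx⟩
  have hioH : io H ≠ 0 := (map_ne_zero_iff io io_inj).2 hH0
  have hrel : ∀ {A B : Q3}, (mp 11).τ.symm f * io B = io A → G * B = A * H := by
    intro A B hAB
    apply io_inj
    rw [map_mul, map_mul, ← hAB, ← hx]
    field_simp
  have hdvd : ∀ {A B : Q3}, (mp 11).τ.symm f * io B = io A → H ∣ B := by
    intro A B hAB
    have h1 := hrel hAB
    exact IsRelPrime.dvd_of_dvd_mul_left hGH.symm ⟨A, by rw [h1, mul_comm]⟩
  -- the denominator has no zeros on the line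
  have hH : ∀ s : ℂ, (psi H).eval s ≠ 0 := by
    intro s hs
    obtain ⟨A, B, hB, hAB⟩ := ptAt_local 11 (h11 s)
    obtain ⟨C', hC'⟩ := hdvd (A := A) (B := B) (by
      apply (mp 11).τ.injective
      rw [map_mul, AlgEquiv.apply_symm_apply]
      exact hAB)
    apply hB
    rw [hC', map_mul, ← psi_eval, hs, zero_mul]
  have hdeg : (psi H).natDegree = 0 := by
    by_contra hne
    obtain ⟨s, hs⟩ := IsAlgClosed.exists_root (psi H) (by
      intro h
      exact hne (Polynomial.natDegree_eq_of_degree_eq_some h))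
    exact hH s hs
  -- the other chart
  obtain ⟨A, B, hB, hAB⟩ := ptAt_local 10 h10
  rw [aeval_zero, constantCoeff_eq] at hB
  have hB : B.coeff 0 ≠ 0 := hB
  have h1 := weight_zero 10 hr hAB
  have hB0 : (comp (ww 10) 0 B).coeff 0 = B.coeff 0 := by
    rw [coeff_comp, if_pos]
    simp [W]
  have hAm := fun m (hm : m ∈ (comp (ww 10) 0 A).support) => comp_ten hm
  have hBm := fun m (hm : m ∈ (comp (ww 10) 0 B).support) => comp_ten hm
  generalize comp (ww 10) 0 A = A0 at h1 hAm
  generalize comp (ww 10) 0 B = B0 at h1 hBm hB0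
  obtain ⟨M1, hM1⟩ := exists_M A0
  obtain ⟨M2, hM2⟩ := exists_M B0
  have hMA : ∀ m ∈ A0.support, m 1 + m 2 ≤ M1 + M2 := fun m hm => (hM1 m hm).trans (by omega)
  have hMB : ∀ m ∈ B0.support, m 1 + m 2 ≤ M1 + M2 := fun m hm => (hM2 m hm).trans (by omega)
  have h2 : (mp 11).τ.symm f * io (star (M1 + M2) B0) = io (star (M1 + M2) A0) := by
    rw [io_star _ hMA hAm, io_star _ hMB hBm, ← h1, map_mul]
    ring
  obtain ⟨C', hC'⟩ := hdvd h2
  have h3 := hrel h2
  rw [hC'] at h3
  have h4 : star (M1 + M2) A0 = G * C' := by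
    apply mul_right_cancel₀ hH0
    rw [← h3]
    ring
  have h5 := star_coeff _ hMB hBm
  rw [hC', map_mul, hB0] at h5
  rw [Polynomial.eq_C_of_natDegree_eq_zero hdeg, Polynomial.coeff_C_mul] at h5
  have h6 : (psi C').coeff (M1 + M2) ≠ 0 := by
    intro h
    rw [h, mul_zero] at h5
    exact hB h5.symm
  have h7 : M1 + M2 ≤ C'.totalDegree :=
    (Polynomial.le_natDegree_of_ne_zero h6).trans (psi_degree C')
  have hC0 : C' ≠ 0 := by
    rintro rfl
    rw [map_zero, Polynomial.coeff_zero] at h6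
    exact h6 rfl
  have h8 := star_degree _ hMB
  rw [hC', totalDegree_mul_of_isDomain hH0 hC0] at h8
  have hHC : H = C (H.coeff 0) := totalDegree_eq_zero_iff_eq_C.1 (by omega)
  have hGC : G = C (G.coeff 0) := by
    by_cases hG0 : G = 0
    · rw [hG0]
      simp
    · have h9 := star_degree _ hMA
      rw [h4, totalDegree_mul_of_isDomain hG0 hC0] at h9
      exact totalDegree_eq_zero_iff_eq_C.1 (by omega)
  refine ⟨G.coeff 0 / H.coeff 0, ?_⟩
  apply (mp 11).τ.symm.injective
  rw [AlgEquiv.commutes, ← hx, map_div₀, ← io_C, ← io_C, ← hHC, ← hGC]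

end Pool.Agent.H436R3.Can
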