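import Mathlib
import Pool.Agent.H436R3.Can.Weight

/-!
# The divisor `z = ∞`
-/

set_option autoImplicit false

namespace Pool.Agent.H436R3.Can

open MvPolynomial Pool.Agent.H436R3.Fol

/-- The divisor `z = ∞`. -/
noncomputable def vD : DVal K3 := pl (mp 5).τ.symm (vX 2)

theorem vD_mono (e : Fin 3 → ℤ) : vD.ord (mono e) = -e 2 := by
  rw [vD, pl_ord, MP.τs_mono, ord_mono, vX_ord, vX_ord, vX_ord]
  have h1 : mulv e (mp 5).N 2 = -e 2 := by
    change e 0 * nn 5 0 2 + e 1 * nn 5 1 2 + e 2 * nn 5 2 2 = -e 2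
    have h2 : nn 5 0 2 = 0 := by decide +kernel
    have h3 : nn 5 1 2 = 0 := by decide +kernel
    have h4 : nn 5 2 2 = -1 := by decide +kernel
    rw [h2, h3, h4]
    ring
  rw [h1]
  simp

theorem vD_five : IsLocalRing' (RR (mp 5).τ) vD := push_divisor _ (valP_divisor _)

theorem vD_reg {i : Fin 12} (h : ∀ k, mm i k 2 ≤ 0) : ∀ f ∈ RR (mp i).τ, vD.Reg f := by
  intro f hf
  refine RR_reg (mp i).τ (fun k => ?_) hf
  rw [MP.τ_vv, vD_mono]
  have := h k
  change 0 ≤ -mm i k 2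
  omega

theorem vD_on {i : Fin 12} (h : ∀ k, mm i k 2 ≤ 0) : IsLocalRing' (RR (mp i).τ) vD := by
  have h1 := vD_five
  rw [← chart_eq] at h1 ⊢
  refine on_chart yy_ne h1 ?_
  rw [chart_eq]
  exact vD_reg h

theorem same_pos {v w : DVal K3} (h : Same v w) {f : K3} : v.Pos f ↔ w.Pos f := by
  unfold DVal.Pos
  by_cases hf : f = 0
  · simp [hf]
  · rw [h f hf]

theorem vD_pos_iff {i : Fin 12} (h : ∀ k, mm i k 2 ≤ 0) (h2 : mm i 2 2 = -1) (q : Q3) :
    vD.Pos ((mp i).τ (io q)) ↔ (X 2 : Q3) ∣ q := by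
  rw [← pl_pos, same_pos (agree_vX' (pl_divisor _ (vD_on h)) (j := 2) ?_)]
  · exact valP_pos_iff (K := K3) (prime_X 2) q
  · rw [pl_ord, MP.τ_vv, vD_mono]
    change 0 < -mm i 2 2
    rw [h2]
    norm_num

/-- The closed point `P` lies on the divisor `z = ∞`. -/
def OnD (P : Pt XX) : Prop :=
  (∀ f ∈ XX.chart P.i, vD.Reg f) ∧ ∀ f : XX.chart P.i, vD.Pos (f : K3) → P.φ f = 0

theorem onD_ptAt {i : Fin 12} (h : ∀ k, mm i k 2 ≤ 0) (h2 : mm i 2 2 = -1) {c : Fin 3 → ℂ}
    (hc : c 2 = 0) : OnD (ptAt i c) := by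
  have hch : XX.chart (ptAt i c).i = RR (mp i).τ := XX_chart i
  refine ⟨?_, fun f hf => ?_⟩
  · rw [hch]
    exact vD_reg h
  · have h3 : (f : K3) ∈ RR (mp i).τ := by
      rw [← hch]
      exact f.2
    obtain ⟨q, hq⟩ := (mem_RR' _).1 h3
    rw [ptAt_φ i c f q hq]
    rw [hq, vD_pos_iff h h2] at hf
    obtain ⟨r, rfl⟩ := hf
    rw [map_mul, aeval_X, hc, zero_mul]

/-- A polynomial all of whose monomials except the constant one involve the last variable. -/
theorem X2_dvd {q : Q3} (h : ∀ m, q.coeff m ≠ 0 → m = 0 ∨ m 2 ≠ 0) :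
    (X 2 : Q3) ∣ q - C (q.coeff 0) := by
  rw [MvPolynomial.as_sum (q - C (q.coeff 0))]
  refine Finset.dvd_sum fun m hm => ?_
  rw [X_dvd_monomial]
  rw [mem_support_iff, coeff_sub, coeff_C] at hm
  by_cases hm0 : 0 = m
  · rw [if_pos hm0, ← hm0, sub_self] at hm
    exact absurd rfl hm
  · rw [if_neg hm0, sub_zero] at hm
    exact Or.inr ((h m hm).resolve_left fun h => hm0 h.symm)

theorem comp_five {q : Q3} {m : Fin 3 →₀ ℕ} (hm : (comp (ww 5) 0 q).coeff m ≠ 0) :
    m = 0 ∨ m 2 ≠ 0 := by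
  rw [coeff_comp] at hm
  by_cases h : W (ww 5) m = 0
  · by_cases h2 : m 2 = 0
    · left
      have e0 : ww 5 0 = 1 := by decide +kernel
      have e1 : ww 5 1 = 1 := by decide +kernel
      have e2 : ww 5 2 = -1 := by decide +kernel
      rw [W, e0, e1, e2, h2] at h
      ext k
      fin_cases k
      · change m 0 = 0
        push_cast at h
        omega
      · change m 1 = 0
        push_cast at h
        omega
      · exact h2
    · exact Or.inr h2
  · rw [if_neg h] at hm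
    exact absurd rfl hm

theorem five_le : ∀ k, mm 5 k 2 ≤ 0 := by decide +kernel
theorem five_two : mm 5 2 2 = -1 := by decide +kernel
theorem ten_le : ∀ k, mm 10 k 2 ≤ 0 := by decide +kernel
theorem ten_two : mm 10 2 2 = -1 := by decide +kernel
theorem eleven_le : ∀ k, mm 11 k 2 ≤ 0 := by decide +kernel
theorem eleven_two : mm 11 2 2 = -1 := by decide +kernel

theorem vD_pos_comp (q : Q3) : vD.Pos ((mp 5).τ (io (comp (ww 5) 0 q)) -
    algebraMap ℂ K3 (q.coeff 0)) := by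
  have h0 : (comp (ww 5) 0 q).coeff 0 = q.coeff 0 := by
    rw [coeff_comp, if_pos]
    simp [W]
  have h1 := X2_dvd (q := comp (ww 5) 0 q) fun m hm => comp_five hm
  rw [← vD_pos_iff five_le five_two, map_sub, map_sub, io_C, AlgEquiv.commutes, h0] at h1
  exact h1

theorem pos_of_mul {f g : K3} (hf : vD.Reg f) (hg : vD.Reg g) (hg' : ¬ vD.Pos g)
    (h : vD.Pos (f * g)) : vD.Pos f := (pos_or hf hg h).resolve_right hg'

theorem pos_sub {f g : K3} (hf : vD.Pos f) (hg : vD.Pos g) : vD.Pos (f - g) := by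
  have h1 : f - g = f + (-1) * g := by ring
  rw [h1]
  refine vD.pos_add hf (vD.pos_mul_left ?_ hg)
  exact vD.reg_neg vD.reg_one

theorem not_pos_const {c : ℂ} (hc : c ≠ 0) : ¬ vD.Pos (algebraMap ℂ K3 c) := by
  rintro (h | h)
  · exact hc ((map_eq_zero _).1 h)
  · rw [vD.const c hc] at h
    omega

theorem pos_iff_const {f : K3} {c : ℂ} (h : vD.Pos (f - algebraMap ℂ K3 c)) : vD.Pos f ↔ c = 0 := by
  constructor
  · intro h1
    by_contra hc
    apply not_pos_const hc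
    have h2 : algebraMap ℂ K3 c = f - (f - algebraMap ℂ K3 c) := by ring
    rw [h2]
    exact pos_sub h1 h
  · rintro rfl
    rwa [map_zero, sub_zero] at h

theorem reg_of_pos {f : K3} (h : vD.Pos f) : vD.Reg f := h.imp id le_of_lt

theorem reg_of_const {f : K3} {c : ℂ} (h : vD.Pos (f - algebraMap ℂ K3 c)) : vD.Reg f := by
  have h2 : f = (f - algebraMap ℂ K3 c) + algebraMap ℂ K3 c := by ring
  rw [h2]
  exact vD.reg_add (reg_of_pos h) (vD.reg_const c)

/-- A first integral which is regular at the point `(0, 0, ∞)` is constant on `z = ∞`. -/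
theorem step1 {f : K3} (hf : f ∈ localRing (ptAt 5 0)) (hr : rad f = 0) :
    ∃ c : ℂ, vD.Pos (f - algebraMap ℂ K3 c) := by
  obtain ⟨A, B, hB, hAB⟩ := ptAt_local 5 hf
  rw [aeval_zero, constantCoeff_eq] at hB
  have hB : B.coeff 0 ≠ 0 := hB
  have h1 := weight_zero 5 hr hAB
  have hA' := vD_pos_comp A
  have hB' := vD_pos_comp B
  set a := (mp 5).τ (io (comp (ww 5) 0 A))
  set b := (mp 5).τ (io (comp (ww 5) 0 B))
  have hnb : ¬ vD.Pos b := fun h => hB ((pos_iff_const hB').1 h)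
  have hb0 : b ≠ 0 := fun h => hnb (Or.inl h)
  have hbr := reg_of_const hB'
  have har := reg_of_const hA'
  have hob : vD.ord b = 0 := by
    have h2 := vD.ord_nonneg hb0 hbr
    by_contra h3
    exact hnb (Or.inr (by omega))
  have hfr : vD.Reg f := by
    have h2 : f = a * b⁻¹ := by rw [← h1, mul_assoc, mul_inv_cancel₀ hb0, mul_one]
    rw [h2]
    exact vD.reg_mul har (vD.reg_inv hb0 hob)
  refine ⟨A.coeff 0 / B.coeff 0, pos_of_mul (vD.reg_sub hfr (vD.reg_const _)) hbr hnb ?_⟩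
  have h3 : (f - algebraMap ℂ K3 (A.coeff 0 / B.coeff 0)) * b =
      (a - algebraMap ℂ K3 (A.coeff 0)) -
        algebraMap ℂ K3 (A.coeff 0 / B.coeff 0) * (b - algebraMap ℂ K3 (B.coeff 0)) := by
    rw [sub_mul, h1, mul_sub, ← map_mul, div_mul_cancel₀ _ hB]
    ring
  rw [h3]
  exact pos_sub hA' (vD.pos_mul_left (vD.reg_const _) hB')

end Pool.Agent.H436R3.Can
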