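import Mathlib
import Pool.Agent.H436R3.Can.DivD
import Pool.Agent.H436R3.Can.Const
import Pool.Agent.H436R3.Can.AlgInt

/-!
# No morphism induces the foliation
-/

set_option autoImplicit false

namespace Pool.Agent.H436R3.Can

open MvPolynomial Pool.Agent.H436R3.Fol

/-- A function in the local ring of a point of the divisor is regular along the divisor. -/
theorem local_reg {P : Pt XX} (hP : OnD P) {f : K3} (hf : f ∈ localRing P) : vD.Reg f := by
  obtain ⟨a, b, hb, hab⟩ := hf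
  have hnb : ¬ vD.Pos (b : K3) := fun h => hb (hP.2 b h)
  have hb0 : (b : K3) ≠ 0 := fun h => hnb (Or.inl h)
  have hob : vD.ord (b : K3) = 0 := by
    have h2 := vD.ord_nonneg hb0 (hP.1 _ b.2)
    by_contra h3
    exact hnb (Or.inr (by omega))
  have h2 : f = a * (b : K3)⁻¹ := by rw [← hab, mul_assoc, mul_inv_cancel₀ hb0, mul_one]
  rw [h2]
  exact vD.reg_mul (hP.1 _ a.2) (vD.reg_inv hb0 hob)

section

variable {L : Type} [Field L] [Algebra ℂ L] (ι : L →ₐ[ℂ] K3)

/-- The valuation ring of the divisor on the function field of the target. -/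
noncomputable def VL : ValuationSubring L :=
  { vD.O.comap (ι : L →+* K3) with
    mem_or_inv_mem' := by
      intro a
      change vD.Reg (ι a) ∨ vD.Reg (ι a⁻¹)
      by_cases h : ι a = 0
      · exact Or.inl (Or.inl h)
      · rw [map_inv₀]
        rcases le_total 0 (vD.ord (ι a)) with h1 | h1
        · exact Or.inl (Or.inr h1)
        · refine Or.inr (Or.inr ?_)
          rw [vD.ord_inv h]
          omega }

theorem mem_VL {a : L} : a ∈ VL ι ↔ vD.Reg (ι a) := Iff.rfl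

/-- The whole divisor is mapped to one point. -/
theorem step2 (Y : Variety L) (hm : IsMorphism XX Y ι) (hr : ∀ a, rad (ι a) = 0)
    {j0 : Fin Y.m} (hj0 : ∀ b ∈ Y.B j0, ι b ∈ localRing (ptAt 5 0)) {P : Pt XX} (hP : OnD P)
    {b : L} (hb : b ∈ Y.B j0) : ι b ∈ localRing P := by
  obtain ⟨j, hj⟩ := hm P
  have hs := Y.separated j0 j (VL ι) (fun b hb => by
      rw [mem_VL]
      obtain ⟨c, hc⟩ := step1 (hj0 b hb) (hr b)
      exact reg_of_const hc)
    (fun b hb => by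
      rw [mem_VL]
      exact local_reg hP (hj b hb))
  have h1 : b ∈ locAt (Y.B j0) (VL ι) :=
    ⟨b, hb, 1, one_mem _, one_ne_zero, by rw [inv_one]; exact one_mem _, mul_one b⟩
  rw [hs] at h1
  obtain ⟨a, ha, c, hc, hc0, hcV, hbc⟩ := h1
  have h2 : c ∈ locAt (Y.B j) (VL ι) :=
    ⟨c, hc, 1, one_mem _, one_ne_zero, by rw [inv_one]; exact one_mem _, mul_one c⟩
  rw [← hs] at h2
  obtain ⟨a', ha', c', hc', hc'0, hc'V, hcc'⟩ := h2
  obtain ⟨α, hα⟩ := step1 (hj0 a' ha') (hr a')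
  obtain ⟨γ, hγ⟩ := step1 (hj0 c' hc') (hr c')
  rw [mem_VL, map_inv₀] at hcV hc'V
  have hιc : ι c ≠ 0 := (map_ne_zero _).2 hc0
  have hιc' : ι c' ≠ 0 := (map_ne_zero _).2 hc'0
  have hcR : vD.Reg (ι c) := local_reg hP (hj c hc)
  have hc'R : vD.Reg (ι c') := reg_of_const hγ
  have unit : ∀ {g : K3}, g ≠ 0 → vD.Reg g⁻¹ → ¬ vD.Pos g := by
    intro g hg0 hgi hg
    have h3 := vD.ord_nonneg (inv_ne_zero hg0) hgi
    rw [vD.ord_inv hg0] at h3
    have h4 := hg.resolve_left hg0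
    omega
  have hnc := unit hιc hcV
  have hnc' := unit hιc' hc'V
  have hγ0 : γ ≠ 0 := fun h => hnc' ((pos_iff_const hγ).2 h)
  have hα0 : α ≠ 0 := by
    intro h
    have h3 := (pos_iff_const hα).2 h
    rw [← hcc', map_mul] at h3
    rcases pos_or hcR hc'R h3 with h4 | h4
    · exact hnc h4
    · exact hnc' h4
  have hc1 : vD.Pos (ι c - algebraMap ℂ K3 (α / γ)) := by
    refine pos_of_mul (vD.reg_sub hcR (vD.reg_const _)) hc'R hnc' ?_
    have h3 : (ι c - algebraMap ℂ K3 (α / γ)) * ι c' =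
        (ι a' - algebraMap ℂ K3 α) - algebraMap ℂ K3 (α / γ) * (ι c' - algebraMap ℂ K3 γ) := by
      rw [sub_mul, mul_sub, ← map_mul, ← map_mul, hcc', div_mul_cancel₀ _ hγ0]
      ring
    rw [h3]
    exact pos_sub hα (vD.pos_mul_left (vD.reg_const _) hγ)
  obtain ⟨a1, b1, hb1, hab1⟩ := hj c hc
  obtain ⟨a2, b2, hb2, hab2⟩ := hj a ha
  have ha1 : P.φ a1 ≠ 0 := by
    have h3 : P.φ (a1 - algebraMap ℂ _ (α / γ) * b1) = 0 := by
      apply hP.2
      have h4 : ((a1 - algebraMap ℂ (XX.chart P.i) (α / γ) * b1 : XX.chart P.i) : K3) =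
          (b1 : K3) * (ι c - algebraMap ℂ K3 (α / γ)) := by
        have h5 : ((a1 - algebraMap ℂ (XX.chart P.i) (α / γ) * b1 : XX.chart P.i) : K3) =
          (a1 : K3) - algebraMap ℂ K3 (α / γ) * (b1 : K3) := rfl
        rw [h5, ← hab1]
        ring
      rw [h4]
      exact vD.pos_mul_left (hP.1 _ b1.2) hc1
    rw [map_sub, map_mul, AlgHom.commutes, sub_eq_zero] at h3
    rw [h3]
    exact mul_ne_zero (div_ne_zero hα0 hγ0) hb1
  refine ⟨a2 * b1, b2 * a1, ?_, ?_⟩
  · rw [map_mul]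
    exact mul_ne_zero hb2 ha1
  · have h3 : ((b2 * a1 : XX.chart P.i) : K3) = (b2 : K3) * (a1 : K3) := rfl
    have h4 : ((a2 * b1 : XX.chart P.i) : K3) = (a2 : K3) * (b1 : K3) := rfl
    rw [h3, h4, ← hab1, ← hab2, ← hbc, map_mul]
    ring

/-- No morphism to a variety induces the foliation. -/
theorem no_morphism (Y : Variety L) (hm : IsMorphism XX Y ι) (hI : Induces ι fR) : False := by
  have hr : ∀ a, rad (ι a) = 0 := (hI rad).1 (mem_space.2 ⟨1, by rw [one_smul]⟩)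
  obtain ⟨j0, hj0⟩ := hm (ptAt 5 0)
  have h1 : ∀ b ∈ Y.B j0, ∃ c : ℂ, ι b = algebraMap ℂ K3 c := by
    intro b hb
    refine step3 (hr b) (fun s => ?_) ?_
    · exact step2 ι Y hm hr hj0 (onD_ptAt eleven_le eleven_two rfl) hb
    · exact step2 ι Y hm hr hj0 (onD_ptAt ten_le ten_two rfl) hb
  have h2 : ∀ D : Derivation ℂ K3 K3, ∀ a, D (ι a) = 0 := by
    intro D a
    obtain ⟨p, q, hp, hq, hq0, hpq⟩ := Y.frac j0 a
    obtain ⟨c, hc⟩ := h1 p hp
    obtain ⟨d, hd⟩ := h1 q hq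
    have h3 : ι a = algebraMap ℂ K3 (c / d) := by
      have h4 : ι q ≠ 0 := (map_ne_zero _).2 hq0
      rw [map_div₀, ← hc, ← hd, ← hpq, map_mul, mul_div_cancel_right₀ _ h4]
    rw [h3, Derivation.map_algebraMap]
  obtain ⟨h, hh⟩ := mem_space.1 ((hI (th 0)).2 (h2 (th 0)))
  have h4 := DFunLike.congr_fun hh (mono (ev 1))
  rw [th_mono, Derivation.smul_apply, rad_mono, smul_eq_mul] at h4
  have h5 : ev 1 0 = 0 := by decide
  have h6 : wt (ev 1) = 1 := by decide
  rw [h5, h6, Int.cast_zero, zero_mul, Int.cast_one, one_mul] at h4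
  have h7 : h = 0 := (mul_eq_zero.1 h4.symm).resolve_right (mono_ne _)
  have h8 := DFunLike.congr_fun hh (mono (ev 0))
  rw [h7, zero_smul, th_mono, Derivation.coe_zero, Pi.zero_apply] at h8
  have h9 : ev 0 0 = 1 := by decide
  rw [h9, Int.cast_one, one_mul] at h8
  exact mono_ne _ h8

end

end Pool.Agent.H436R3.Can
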